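import Pool.Agent.U481.LN.Vel
import Pool.Agent.U481.EU.Low

/-!
Rates of blow-up and the length of the vortex lines.
-/

open MeasureTheory Set Filter Metric
open scoped ENNReal NNReal Topology

set_option autoImplicit false

namespace Pool.Agent.U481.LN

open Pool.Agent.H708R2.EulerSign Pool.Agent.H708R2.EulerTypeI Pool.Agent.W786.Dir
  Pool.Agent.W786.Max Pool.Agent.U481.EU

variable {T : ℝ} {u : ℝ → V → V} {p : ℝ → V → ℝ}

/-- The length in terms of the vorticity. -/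
theorem len_M4 (h : IsC2Solution T u p) {s t : ℝ} (hs : 0 < s) (hst : s ≤ t) (ht : t < T)
    {a b : ℝ} {Γ : ℝ → V} (hΓ : Arc (u t) Γ a b) {W : ℝ}
    (h0 : ∀ τ ∈ Icc a b, vort (u t) (Γ τ) ≠ 0)
    (h4 : ∀ τ ∈ Icc a b, 4 * W ≤ nrm (vort (u t) (Γ τ)))
    (hW : ∀ x, nrm (vort (u s) x) ≤ W)
    {M : ℝ → ℝ} (hMi : IntervalIntegrable (fun σ => M σ ^ (3 / 5 : ℝ)) volume s t)
    (hM : ∀ σ ∈ Ioo s t, ∀ x, nrm (vort (u σ) x) ≤ M σ) {E : ℝ} (hE0 : 0 < E)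
    (hE : ener (u 0) ≤ E) {K : ℝ} (hK : 0 ≤ K) (hKd : dvar (u t) Γ a b ≤ ENNReal.ofReal K) :
    len (u t) Γ a b ≤ 8 * Cv * (K + 1) *
      ∫ σ in s..t, (E ^ (1 / 5 : ℝ) * M σ ^ (3 / 5 : ℝ) + E ^ (1 / 2 : ℝ)) := by
  have hi : IntervalIntegrable (fun σ => E ^ (1 / 5 : ℝ) * M σ ^ (3 / 5 : ℝ) + E ^ (1 / 2 : ℝ))
      volume s t := (hMi.const_mul _).add intervalIntegrable_const
  have h1 := len_bound4 h hs hst ht hΓ h0 hW
    (D := fun σ => 2 * Cv * (E ^ (1 / 5 : ℝ) * M σ ^ (3 / 5 : ℝ) + E ^ (1 / 2 : ℝ)))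
    (hi.const_mul _) (fun σ hσ x y => by
      have hσI : σ ∈ Ioo 0 T := ⟨hs.trans hσ.1, hσ.2.trans ht⟩
      have h2 := vel_sol h hσI (hM σ hσ) hE0 hE x
      have h3 := vel_sol h hσI (hM σ hσ) hE0 hE y
      have h4 : nrm (u σ x - u σ y) ≤ nrm (u σ x) + nrm (u σ y) := by
        rw [sub_eq_add_neg]
        refine (nrm_add_le _ _).trans ?_
        rw [nrm_neg]
      linarith) hK hKd h4
  refine h1.trans (le_of_eq ?_)
  rw [intervalIntegral.integral_const_mul]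
  ring

/-- The length in terms of the vorticity. -/
theorem len_M (h : IsC2Solution T u p) {s t : ℝ} (hs : 0 < s) (hst : s ≤ t) (ht : t < T)
    {a b : ℝ} {Γ : ℝ → V} (hΓ : Arc (u t) Γ a b)
    {W lam : ℝ} (hlam : 0 < lam) (h0 : ∀ τ ∈ Icc a b, lam ≤ nrm (vort (u t) (Γ τ)))
    (hW : ∀ x, nrm (vort (u s) x) ≤ W) (hWl : 4 * W ≤ lam)
    {M : ℝ → ℝ} (hMi : IntervalIntegrable (fun σ => M σ ^ (3 / 5 : ℝ)) volume s t)
    (hM : ∀ σ ∈ Ioo s t, ∀ x, nrm (vort (u σ) x) ≤ M σ) {E : ℝ} (hE0 : 0 < E)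
    (hE : ener (u 0) ≤ E) {K : ℝ} (hK : 0 ≤ K) (hKd : dvar (u t) Γ a b ≤ ENNReal.ofReal K) :
    len (u t) Γ a b ≤ 8 * Cv * (K + 1) *
      ∫ σ in s..t, (E ^ (1 / 5 : ℝ) * M σ ^ (3 / 5 : ℝ) + E ^ (1 / 2 : ℝ)) :=
  len_M4 h hs hst ht hΓ (fun τ hτ h2 => by
    have h3 := h0 τ hτ
    rw [h2, nrm_eq] at h3
    simp at h3
    linarith) (fun τ hτ => hWl.trans (h0 τ hτ)) hW hMi hM hE0 hE hK hKd

lemma int_rate {T s t β : ℝ} (hst : s ≤ t) (ht : t < T) (hβ : β < 1) :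
    IntervalIntegrable (fun σ => (T - σ) ^ (-β)) volume s t ∧
    ∫ σ in s..t, (T - σ) ^ (-β) ≤ (T - s) ^ (1 - β) / (1 - β) := by
  have h1 : 0 < 1 - β := by linarith
  constructor
  · refine ContinuousOn.intervalIntegrable_of_Icc hst fun σ hσ => ?_
    have h2 : 0 < T - σ := by linarith [hσ.2]
    exact ((continuous_const.sub continuous_id).continuousAt.rpow_const
      (Or.inl h2.ne')).continuousWithinAt
  · rw [intervalIntegral.integral_comp_sub_left (fun x => x ^ (-β)) T,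
      integral_rpow (Or.inl (by linarith))]
    rw [show -β + 1 = 1 - β by ring]
    refine div_le_div_of_nonneg_right ?_ h1.le
    have : 0 ≤ (T - t) ^ (1 - β) := Real.rpow_nonneg (by linarith) _
    linarith

/-- Upper bounds for the vorticity and the length of the vortex lines. -/
theorem short (T E A γ : ℝ) (hT : 0 < T) (hE0 : 0 < E) (hA : 0 < A) (hγ0 : 0 < γ)
    (hγ : γ < 5 / 3) : ∃ C lam₀ : ℝ, 0 < C ∧ 0 < lam₀ ∧ ∀ (u : ℝ → V → V) (p : ℝ → V → ℝ),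
    IsC2Solution T u p → ener (u 0) ≤ E →
    (∀ t ∈ Ioo 0 T, ∀ x, nrm (vort (u t) x) ≤ A * (T - t) ^ (-γ)) →
    ∀ t ∈ Ioo 0 T, ∀ (Γ : ℝ → V) (a b K lam : ℝ), lam₀ ≤ lam → Arc (u t) Γ a b →
      (∀ τ ∈ Icc a b, lam ≤ nrm (vort (u t) (Γ τ))) → 0 ≤ K →
      dvar (u t) Γ a b ≤ ENNReal.ofReal K →
      len (u t) Γ a b ≤ C * (K + 1) * lam ^ (-((5 - 3 * γ) / (5 * γ))) := by
  obtain ⟨β, hβ⟩ : ∃ β, β = 3 * γ / 5 := ⟨_, rfl⟩
  have hβ0 : 0 < β := by rw [hβ]; positivity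
  have hβ1 : β < 1 := by rw [hβ]; linarith
  have hb : 0 < 1 - β := by linarith
  have hCv := Cv_pos
  refine ⟨8 * Cv * ((E ^ (1 / 5 : ℝ) * A ^ (3 / 5 : ℝ) / (1 - β) + E ^ (1 / 2 : ℝ) * T ^ β)
    * (4 * A) ^ ((1 - β) / γ)), 4 * A * (T / 2) ^ (-γ), by positivity, by positivity, ?_⟩
  intro u p h hE hM t ht Γ a b K lam hlam0 hΓ h0 hK hKd
  have hT2 : 0 < T / 2 := by positivity
  have hlam : 0 < lam := lt_of_lt_of_le (by positivity) hlam0
  obtain ⟨r, hr⟩ : ∃ r, r = (4 * A / lam) ^ (1 / γ) := ⟨_, rfl⟩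
  have hq0 : 0 < 4 * A / lam := by positivity
  have hr0 : 0 < r := by rw [hr]; exact Real.rpow_pos_of_pos hq0 _
  have hrγ : r ^ γ = 4 * A / lam := by
    rw [hr, ← Real.rpow_mul hq0.le, one_div, inv_mul_cancel₀ hγ0.ne', Real.rpow_one]
  have hrT : r ≤ T / 2 := by
    have h1 : r ^ γ ≤ (T / 2) ^ γ := by
      rw [hrγ, div_le_iff₀ hlam]
      calc 4 * A = (T / 2) ^ γ * (4 * A * (T / 2) ^ (-γ)) := by
            rw [Real.rpow_neg hT2.le]
            field_simp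
        _ ≤ (T / 2) ^ γ * lam := by gcongr
    exact (Real.rpow_le_rpow_iff hr0.le hT2.le hγ0).1 h1
  have hMr : A * r ^ (-γ) = lam / 4 := by
    rw [Real.rpow_neg hr0.le, hrγ]
    field_simp
  have hst : T - r ≤ t := by
    by_contra hcon
    push Not at hcon
    have h1 := hM t ht (Γ a)
    have h2 := h0 a ⟨le_rfl, hΓ.1⟩
    have h3 : (T - t) ^ (-γ) ≤ r ^ (-γ) :=
      Real.rpow_le_rpow_of_nonpos hr0 (by linarith) (by linarith)
    have h4 : A * (T - t) ^ (-γ) ≤ A * r ^ (-γ) := mul_le_mul_of_nonneg_left h3 hA.le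
    rw [hMr] at h4
    linarith
  have hs0 : 0 < T - r := by linarith
  have hsI : T - r ∈ Ioo 0 T := ⟨hs0, by linarith⟩
  obtain ⟨M, hMd⟩ : ∃ M : ℝ → ℝ, M = fun σ => A * (T - σ) ^ (-γ) := ⟨_, rfl⟩
  have hM35 : ∀ σ, σ < T → M σ ^ (3 / 5 : ℝ) = A ^ (3 / 5 : ℝ) * (T - σ) ^ (-β) := by
    intro σ hσ
    have h1 : 0 ≤ T - σ := by linarith
    rw [hMd]
    show (A * (T - σ) ^ (-γ)) ^ (3 / 5 : ℝ) = _
    rw [Real.mul_rpow hA.le (Real.rpow_nonneg h1 _), ← Real.rpow_mul h1, hβ]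
    congr 2
    ring
  obtain ⟨hi1, hi2⟩ := int_rate (T := T) (s := T - r) (t := t) hst ht.2 hβ1
  have hMi : IntervalIntegrable (fun σ => M σ ^ (3 / 5 : ℝ)) volume (T - r) t := by
    refine (hi1.const_mul (A ^ (3 / 5 : ℝ))).congr ?_
    intro σ hσ
    rw [uIoc_of_le hst] at hσ
    exact (hM35 σ (hσ.2.trans_lt ht.2)).symm
  have h1 := len_M h hs0 hst ht.2 hΓ hlam h0 (W := lam / 4) (fun x => by
      have h2 := hM (T - r) hsI x
      rw [sub_sub_cancel, hMr] at h2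
      exact h2) (by linarith) hMi (fun σ hσ x => by
        rw [hMd]
        exact hM σ ⟨hs0.trans hσ.1, hσ.2.trans ht.2⟩ x) hE0 hE hK hKd
  have h2 : ∫ σ in (T - r)..t, (E ^ (1 / 5 : ℝ) * M σ ^ (3 / 5 : ℝ) + E ^ (1 / 2 : ℝ))
      = E ^ (1 / 5 : ℝ) * (A ^ (3 / 5 : ℝ) * ∫ σ in (T - r)..t, (T - σ) ^ (-β))
        + (t - (T - r)) * E ^ (1 / 2 : ℝ) := by
    rw [intervalIntegral.integral_add (hMi.const_mul _) intervalIntegrable_const,
      intervalIntegral.integral_const, intervalIntegral.integral_const_mul,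
      ← intervalIntegral.integral_const_mul (A ^ (3 / 5 : ℝ))]
    congr 2
    refine intervalIntegral.integral_congr fun σ hσ => ?_
    rw [uIcc_of_le hst] at hσ
    exact hM35 σ (hσ.2.trans_lt ht.2)
  rw [sub_sub_cancel] at hi2
  have hrb : r ≤ r ^ (1 - β) * T ^ β := by
    have h3 : r = r ^ (1 - β) * r ^ β := by
      rw [← Real.rpow_add hr0, sub_add_cancel, Real.rpow_one]
    have h4 : r ^ β ≤ T ^ β := Real.rpow_le_rpow hr0.le (by linarith) hβ0.le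
    calc r = r ^ (1 - β) * r ^ β := h3
      _ ≤ _ := mul_le_mul_of_nonneg_left h4 (Real.rpow_nonneg hr0.le _)
  have h3 : ∫ σ in (T - r)..t, (E ^ (1 / 5 : ℝ) * M σ ^ (3 / 5 : ℝ) + E ^ (1 / 2 : ℝ))
      ≤ (E ^ (1 / 5 : ℝ) * A ^ (3 / 5 : ℝ) / (1 - β) + E ^ (1 / 2 : ℝ) * T ^ β) * r ^ (1 - β) := by
    rw [h2]
    have h4 : E ^ (1 / 5 : ℝ) * (A ^ (3 / 5 : ℝ) * ∫ σ in (T - r)..t, (T - σ) ^ (-β))
        ≤ E ^ (1 / 5 : ℝ) * (A ^ (3 / 5 : ℝ) * (r ^ (1 - β) / (1 - β))) := by gcongr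
    have h5 : (t - (T - r)) * E ^ (1 / 2 : ℝ) ≤ r ^ (1 - β) * T ^ β * E ^ (1 / 2 : ℝ) := by
      refine mul_le_mul_of_nonneg_right ?_ (by positivity)
      have := ht.2
      linarith
    calc _ ≤ _ := add_le_add h4 h5
      _ = _ := by ring
  have h4 : r ^ (1 - β) = (4 * A) ^ ((1 - β) / γ) * lam ^ (-((5 - 3 * γ) / (5 * γ))) := by
    rw [hr, ← Real.rpow_mul hq0.le, Real.div_rpow (by positivity) hlam.le,
      show 1 / γ * (1 - β) = (1 - β) / γ by ring, Real.rpow_neg hlam.le]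
    have h5 : (5 - 3 * γ) / (5 * γ) = (1 - β) / γ := by
      rw [hβ]
      field_simp
    rw [h5]
    rfl
  rw [h4] at h3
  refine h1.trans ?_
  calc 8 * Cv * (K + 1) * _ ≤ 8 * Cv * (K + 1) * _ :=
        mul_le_mul_of_nonneg_left h3 (by positivity)
    _ = _ := by ring

/-- The first time at which a function, which cannot grow too fast, has a given value. -/
lemma first {f : ℝ → ℝ} {s t' C L : ℝ} (hst : s ≤ t')
    (hg : ∀ σ τ, s ≤ σ → σ ≤ τ → τ ≤ t' → f τ ≤ f σ * Real.exp (C * (τ - σ)))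
    (hL : f s < L) (ht' : L ≤ f t') :
    ∃ t₁ ∈ Ioc s t', f t₁ = L ∧ ∀ σ ∈ Icc s t₁, f σ ≤ L := by
  obtain ⟨S, hS⟩ : ∃ S : Set ℝ, S = {t | t ∈ Icc s t' ∧ L ≤ f t} := ⟨_, rfl⟩
  have hne : S.Nonempty := ⟨t', by rw [hS]; exact ⟨⟨hst, le_rfl⟩, ht'⟩⟩
  have hbb : BddBelow S := ⟨s, by rintro x hx; rw [hS] at hx; exact hx.1.1⟩
  obtain ⟨t₁, ht₁⟩ : ∃ t₁, t₁ = sInf S := ⟨_, rfl⟩
  have h1 : s ≤ t₁ := by
    rw [ht₁]
    exact le_csInf hne fun x hx => by rw [hS] at hx; exact hx.1.1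
  have h2 : t₁ ≤ t' := by
    rw [ht₁]
    exact csInf_le hbb (by rw [hS]; exact ⟨⟨hst, le_rfl⟩, ht'⟩)
  -- the value is at least `L`
  have h3 : L ≤ f t₁ := by
    by_contra hcon
    push Not at hcon
    have h4 : Tendsto (fun x : ℝ => f t₁ * Real.exp (C * (x - t₁))) (𝓝 t₁) (𝓝 (f t₁)) :=
      Continuous.tendsto' (by fun_prop) _ _ (by simp)
    obtain ⟨ε, hε, hε2⟩ := Metric.eventually_nhds_iff.1 (h4.eventually (gt_mem_nhds hcon))
    have h5 : t₁ + ε ≤ sInf S := by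
      refine le_csInf hne fun x hx => ?_
      by_contra hx2
      push Not at hx2
      have hx3 : t₁ ≤ x := by rw [ht₁]; exact csInf_le hbb hx
      rw [hS] at hx
      have h6 := hg t₁ x h1 hx3 hx.1.2
      have h7 := hε2 (show dist x t₁ < ε by
        rw [Real.dist_eq, abs_of_nonneg (by linarith)]
        linarith)
      linarith [hx.2]
    rw [← ht₁] at h5
    linarith
  have h4 : ∀ σ, s ≤ σ → σ < t₁ → f σ < L := by
    intro σ h5 h6
    by_contra hcon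
    have h7 : σ ∈ S := by
      rw [hS]
      exact ⟨⟨h5, h6.le.trans h2⟩, not_lt.1 hcon⟩
    have h8 := csInf_le hbb h7
    rw [← ht₁] at h8
    linarith
  have h5 : s < t₁ := by
    refine lt_of_le_of_ne h1 fun h => ?_
    rw [← h] at h3
    linarith
  have h6 : f t₁ ≤ L := by
    have h7 : Tendsto (fun x : ℝ => L * Real.exp (C * (t₁ - x))) (𝓝[<] t₁) (𝓝 L) := by
      refine Tendsto.mono_left ?_ nhdsWithin_le_nhds
      exact Continuous.tendsto' (by fun_prop) _ _ (by simp)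
    refine ge_of_tendsto h7 ?_
    filter_upwards [Ioo_mem_nhdsLT h5] with σ hσ
    refine (hg σ t₁ hσ.1.le hσ.2.le h2).trans ?_
    exact mul_le_mul_of_nonneg_right (h4 σ hσ.1.le hσ.2).le (Real.exp_pos _).le
  refine ⟨t₁, ⟨h5, h2⟩, le_antisymm h6 h3, fun σ hσ => ?_⟩
  rcases lt_or_eq_of_le hσ.2 with h7 | h7
  · exact (h4 σ hσ.1 h7).le
  · rw [h7]
    exact h6

/-- A bound by `C / √(T - t)` gives a finite Beale-Kato-Majda integral. -/
lemma bkm_half (h : IsC2Solution T u p) (hT : 0 < T) {s C : ℝ} (hs : s ∈ Ioo 0 T) (hC : 0 ≤ C)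
    (hM : ∀ t ∈ Ico s T, ∀ x, nrm (vort (u t) x) ≤ C * (T - t) ^ (-(1 / 2) : ℝ)) :
    BKMFinite T u := by
  obtain ⟨C₁, hC1, hC2⟩ := vort_bound h.sol hs.2
  have h1 : IntegrableOn (fun t => C₁ + C * (T - t) ^ (-(1 / 2) : ℝ)) (Ioo 0 T) := by
    have h2 : IntervalIntegrable (fun x : ℝ => x ^ (-(1 / 2) : ℝ)) volume 0 T :=
      intervalIntegral.intervalIntegrable_rpow' (by norm_num)
    have h3 := h2.comp_sub_left T
    rw [sub_zero, sub_self] at h3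
    have h4 := (intervalIntegrable_iff_integrableOn_Ioo_of_le hT.le).1 h3.symm
    exact (integrableOn_const (by simp)).add (h4.const_mul C)
  unfold BKMFinite
  refine lt_of_le_of_lt (setLIntegral_mono' measurableSet_Ioo fun t ht => ?_)
    h1.lintegral_lt_top
  refine iSup_le fun x => ENNReal.ofReal_le_ofReal ?_
  have h5 : 0 ≤ C * (T - t) ^ (-(1 / 2) : ℝ) :=
    mul_nonneg hC (Real.rpow_nonneg (by linarith [ht.2]) _)
  rcases le_or_gt t s with h6 | h6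
  · have := (hC2 t ⟨ht.1.le, h6⟩ x).1
    linarith
  · have := hM t ⟨h6.le, ht.2⟩ x
    linarith

end Pool.Agent.U481.LN
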