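import Pool.Agent.U481.LN.Tr
import Pool.Agent.W786.Dir4

/-!
The length of the vortex lines.
-/

open MeasureTheory Set Filter
open scoped ENNReal NNReal Topology

set_option autoImplicit false

namespace Pool.Agent.U481.LN

open Pool.Agent.H708R2.EulerSign Pool.Agent.H708R2.EulerTypeI Pool.Agent.W786.Dir

variable {T : ℝ} {u : ℝ → V → V} {p : ℝ → V → ℝ}

/-- `Γ : [a, b] → ℝ³` is an arc of a vortex line of the field `v`. -/
def Arc (v : V → V) (Γ : ℝ → V) (a b : ℝ) : Prop :=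
  a ≤ b ∧ ∀ τ ∈ Icc a b, HasDerivWithinAt Γ (vort v (Γ τ)) (Icc a b) τ

/-- The length of an arc. -/
noncomputable def len (v : V → V) (Γ : ℝ → V) (a b : ℝ) : ℝ := ∫ τ in a..b, nrm (vort v (Γ τ))

/-- The total variation of the direction of the vorticity on an arc. -/
noncomputable def dvar (v : V → V) (Γ : ℝ → V) (a b : ℝ) : ℝ≥0∞ :=
  eVariationOn (fun τ => (WithLp.toLp 2 (dirv v (Γ τ)) : EuclideanSpace ℝ (Fin 3))) (Icc a b)

lemma nrm_add_le (x y : V) : nrm (x + y) ≤ nrm x + nrm y := by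
  simp only [nrm_eq, WithLp.toLp_add]
  exact norm_add_le _ _

lemma disp_le {X X' : ℝ → V} {a b : ℝ} (hab : a ≤ b)
    (hX : ∀ q ∈ Icc a b, HasDerivWithinAt X (X' q) (Icc a b) q) (hc : ContinuousOn X' (Icc a b))
    {D : ℝ → ℝ} (hDi : IntervalIntegrable D volume a b) (hD : ∀ q ∈ Ioo a b, nrm (X' q) ≤ D q) :
    nrm (X b - X a) ≤ ∫ q in a..b, D q := by
  have h1 : ∫ q in a..b, (WithLp.toLp 2 (X' q) : EuclideanSpace ℝ (Fin 3))
      = WithLp.toLp 2 (X b) - WithLp.toLp 2 (X a) := by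
    refine intervalIntegral.integral_eq_sub_of_hasDerivAt_of_le hab (f := fun q =>
      (WithLp.toLp 2 (X q) : EuclideanSpace ℝ (Fin 3)))
      (fun q hq => (toLp_hasDerivWithinAt (hX q hq)).continuousWithinAt)
      (fun q hq => (toLp_hasDerivWithinAt (hX q (Ioo_subset_Icc_self hq))).hasDerivAt
        (Icc_mem_nhds hq.1 hq.2)) ?_
    have h2 : ContinuousOn (fun q => (WithLp.toLp 2 (X' q) : EuclideanSpace ℝ (Fin 3)))
        (Icc a b) := (PiLp.continuous_toLp 2 _).comp_continuousOn hc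
    exact h2.intervalIntegrable_of_Icc hab
  rw [nrm_eq, WithLp.toLp_sub, ← h1]
  refine intervalIntegral.norm_integral_le_of_norm_le hab ?_ hDi
  have h3 : ∀ᵐ q : ℝ, q ≠ b := by
    simp [ae_iff, measure_singleton]
  filter_upwards [h3] with q hq hq2
  rw [← nrm_eq]
  exact hD q ⟨hq2.1, lt_of_le_of_ne hq2.2 hq⟩

lemma slice_cont (h : IsC2Solution T u p) {t : ℝ} (ht : t ∈ Ioo 0 T) : ContDiff ℝ 2 (u t) := by
  have h1 : ContDiffOn ℝ 2 (fun x : V => (fun z : ℝ × V => u z.1 z.2) (t, x)) univ := by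
    refine h.u2.comp (contDiff_const.prodMk contDiff_id).contDiffOn fun x _ => ?_
    exact mem_Om ht x
  exact contDiffOn_univ.1 h1

/-- The chord inequality. -/
theorem chord (h : IsC2Solution T u p) {s t : ℝ} (hs : 0 < s) (hst : s ≤ t) (ht : t < T)
    {a b : ℝ} {Γ : ℝ → V} (hΓ : Arc (u t) Γ a b) {W : ℝ} (hW : ∀ x, nrm (vort (u s) x) ≤ W)
    {D : ℝ → ℝ} (hDi : IntervalIntegrable D volume s t)
    (hD : ∀ σ ∈ Ioo s t, ∀ x y, nrm (u σ x - u σ y) ≤ D σ) :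
    nrm (Γ b - Γ a) ≤ W * (b - a) + ∫ σ in s..t, D σ := by
  obtain ⟨Z, hZ, hZ2⟩ := carry h hs hst ht hΓ.2
  obtain ⟨X, hX, hXs, hXt⟩ := hZ2 a ⟨le_rfl, hΓ.1⟩
  obtain ⟨Y, hY, hYs, hYt⟩ := hZ2 b ⟨hΓ.1, le_rfl⟩
  have hsI : s ∈ Ioo 0 T := ⟨hs, hst.trans_lt ht⟩
  have h1 : nrm (Z b - Z a) ≤ W * (b - a) := by
    have h2 := disp_le hΓ.1 hZ (D := fun _ => W) (((vort_cont (slice_cont h hsI)).comp_continuousOn
      fun τ hτ => (hZ τ hτ).continuousWithinAt)) intervalIntegrable_const (fun q _ => hW _)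
    rw [intervalIntegral.integral_const, smul_eq_mul] at h2
    linarith
  have hcu : ∀ {X : ℝ → V}, IsTraj u X s t → ContinuousOn (fun q => u q (X q)) (Icc s t) := by
    intro X hX
    have h2 : ContinuousOn (fun z : ℝ × V => u z.1 z.2) (Om T) := h.u2.continuousOn
    have h3 : ContinuousOn (fun q => (q, X q)) (Icc s t) :=
      continuousOn_id.prodMk fun q hq => (hX q hq).continuousWithinAt
    exact h2.comp h3 fun q hq => mem_Om ⟨hs.trans_le hq.1, hq.2.trans_lt ht⟩ _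
  have h4 := disp_le hst (X := fun q => Y q - X q) (X' := fun q => u q (Y q) - u q (X q))
    (fun q hq => (hY q hq).sub (hX q hq)) ((hcu hY).sub (hcu hX)) hDi (fun q hq => hD q hq _ _)
  have h5 : Γ b - Γ a = (Z b - Z a) + ((Y t - X t) - (Y s - X s)) := by
    rw [hXs, hXt, hYs, hYt]
    abel
  rw [h5]
  exact (nrm_add_le _ _).trans (add_le_add h1 h4)

lemma arc_cont {v : V → V} (hv : ContDiff ℝ 2 v) {Γ : ℝ → V} {a b : ℝ} (hΓ : Arc v Γ a b) :
    ContinuousOn (fun τ => vort v (Γ τ)) (Icc a b) :=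
  (vort_cont hv).comp_continuousOn fun τ hτ => (hΓ.2 τ hτ).continuousWithinAt

lemma Arc.mono {v : V → V} {Γ : ℝ → V} {a b c d : ℝ} (hΓ : Arc v Γ a b) (hac : a ≤ c)
    (hcd : c ≤ d) (hdb : d ≤ b) : Arc v Γ c d :=
  ⟨hcd, fun τ hτ => (hΓ.2 τ ⟨hac.trans hτ.1, hτ.2.trans hdb⟩).mono (Icc_subset_Icc hac hdb)⟩

lemma nrm_dirv {v : V → V} {x : V} (hx : vort v x ≠ 0) : nrm (dirv v x) = 1 := by
  unfold dirv
  rw [nrm_smul, abs_of_nonneg (inv_nonneg.2 (nrm_nonneg _)), inv_mul_cancel₀ (nrm_pos hx).ne']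

lemma vort_dirv {v : V → V} {x : V} : nrm (vort v x) • dirv v x = vort v x := by
  unfold dirv
  by_cases hx : vort v x = 0
  · simp [hx]
  · rw [smul_smul, mul_inv_cancel₀ (nrm_pos hx).ne', one_smul]

/-- An arc whose direction deviates by at most one from the direction at its beginning. -/
lemma piece {v : V → V} (hv : ContDiff ℝ 2 v) {Γ : ℝ → V} {a b : ℝ} (hΓ : Arc v Γ a b)
    (h0 : ∀ τ ∈ Icc a b, vort v (Γ τ) ≠ 0)
    (h1 : ∀ τ ∈ Icc a b, nrm (dirv v (Γ τ) - dirv v (Γ a)) ≤ 1) :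
    len v Γ a b ≤ 2 * nrm (Γ b - Γ a) := by
  obtain ⟨e, he⟩ : ∃ e, e = dirv v (Γ a) := ⟨_, rfl⟩
  have he1 : nrm e = 1 := by rw [he]; exact nrm_dirv (h0 a ⟨le_rfl, hΓ.1⟩)
  have hc := arc_cont hv hΓ
  have h2 : ∫ τ in a..b, (e ⬝ᵥ vort v (Γ τ)) = e ⬝ᵥ Γ b - e ⬝ᵥ Γ a := by
    have hd : ∀ {w w' : ℝ → V} {q : ℝ} {S : Set ℝ}, HasDerivWithinAt w (w' q) S q →
        HasDerivWithinAt (fun q => e ⬝ᵥ w q) (e ⬝ᵥ w' q) S q := by
      intro w w' q S hw
      simp only [dotProduct]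
      exact HasDerivWithinAt.fun_sum fun i _ => ((hasDerivWithinAt_pi.1 hw) i).const_mul (e i)
    refine intervalIntegral.integral_eq_sub_of_hasDerivAt_of_le hΓ.1 (f := fun q => e ⬝ᵥ Γ q)
      (fun q hq => (hd (w' := fun q => vort v (Γ q)) (hΓ.2 q hq)).continuousWithinAt)
      (fun q hq => (hd (w' := fun q => vort v (Γ q)) (hΓ.2 q (Ioo_subset_Icc_self hq))).hasDerivAt
        (Icc_mem_nhds hq.1 hq.2)) ?_
    have h3 : ContinuousOn (fun τ => e ⬝ᵥ vort v (Γ τ)) (Icc a b) := by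
      simp only [dotProduct]
      exact continuousOn_finsetSum _ fun i _ => continuousOn_const.mul
        ((continuous_apply i).comp_continuousOn hc)
    exact h3.intervalIntegrable_of_Icc hΓ.1
  have h4 : len v Γ a b ≤ ∫ τ in a..b, 2 * (e ⬝ᵥ vort v (Γ τ)) := by
    unfold len
    refine intervalIntegral.integral_mono_on hΓ.1 ?_ ?_ fun τ hτ => ?_
    · exact ((nrm_cont.comp_continuousOn hc)).intervalIntegrable_of_Icc hΓ.1
    · have h3 : ContinuousOn (fun τ => 2 * (e ⬝ᵥ vort v (Γ τ))) (Icc a b) := by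
        simp only [dotProduct]
        exact continuousOn_const.mul (continuousOn_finsetSum _ fun i _ => continuousOn_const.mul
          ((continuous_apply i).comp_continuousOn hc))
      exact h3.intervalIntegrable_of_Icc hΓ.1
    · have h5 := h1 τ hτ
      rw [← he] at h5
      have h6 := nrm_dirv (h0 τ hτ)
      have h7 : 1 / 2 ≤ e ⬝ᵥ dirv v (Γ τ) := by
        have h8 : nrm (dirv v (Γ τ) - e) ^ 2 ≤ 1 := pow_le_one₀ (nrm_nonneg _) h5
        rw [nrm_sq] at h8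
        have h9 : (dirv v (Γ τ) - e) ⬝ᵥ (dirv v (Γ τ) - e)
            = nrm (dirv v (Γ τ)) ^ 2 + nrm e ^ 2 - 2 * (e ⬝ᵥ dirv v (Γ τ)) := by
          rw [nrm_sq, nrm_sq]
          simp only [dotProduct, Fin.sum_univ_three, Pi.sub_apply]
          ring
        rw [h9, h6, he1] at h8
        linarith
      have h10 : e ⬝ᵥ vort v (Γ τ) = nrm (vort v (Γ τ)) * (e ⬝ᵥ dirv v (Γ τ)) := by
        conv_lhs => rw [← vort_dirv]
        rw [dotProduct_smul, smul_eq_mul]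
      rw [h10]
      nlinarith [nrm_nonneg (vort v (Γ τ))]
  rw [intervalIntegral.integral_const_mul, h2, ← dotProduct_sub] at h4
  have h11 := (le_abs_self _).trans (dot_le e (Γ b - Γ a))
  rw [he1, one_mul] at h11
  linarith

lemma dir_cont {v : V → V} (hv : ContDiff ℝ 2 v) {Γ : ℝ → V} {a b : ℝ} (hΓ : Arc v Γ a b)
    (h0 : ∀ τ ∈ Icc a b, vort v (Γ τ) ≠ 0) :
    ContinuousOn (fun τ => dirv v (Γ τ)) (Icc a b) := by
  unfold dirv
  exact ((nrm_cont.comp_continuousOn (arc_cont hv hΓ)).inv₀ fun τ hτ => (nrm_pos (h0 τ hτ)).ne').smul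
    (arc_cont hv hΓ)

lemma len_add {v : V → V} (hv : ContDiff ℝ 2 v) {Γ : ℝ → V} {a b c : ℝ} (hΓ : Arc v Γ a b)
    (hac : a ≤ c) (hcb : c ≤ b) : len v Γ a b = len v Γ a c + len v Γ c b := by
  have h1 := nrm_cont.comp_continuousOn (arc_cont hv hΓ)
  exact (intervalIntegral.integral_add_adjacent_intervals
    ((h1.mono (Icc_subset_Icc_right hcb)).intervalIntegrable_of_Icc hac)
    ((h1.mono (Icc_subset_Icc_left hac)).intervalIntegrable_of_Icc hcb)).symm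

lemma dvar_add {v : V → V} {Γ : ℝ → V} {a b c : ℝ} (hac : a ≤ c) (hcb : c ≤ b) :
    dvar v Γ a c + dvar v Γ c b = dvar v Γ a b := by
  have h1 := eVariationOn.Icc_add_Icc
    (fun τ => (WithLp.toLp 2 (dirv v (Γ τ)) : EuclideanSpace ℝ (Fin 3))) (s := univ) hac hcb
    (mem_univ c)
  simpa [dvar] using h1

lemma le_dvar {v : V → V} {Γ : ℝ → V} {a b c d : ℝ} (hc : c ∈ Icc a b) (hd : d ∈ Icc a b) :
    ENNReal.ofReal (nrm (dirv v (Γ c) - dirv v (Γ d))) ≤ dvar v Γ a b := by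
  have h1 := eVariationOn.edist_le
    (fun τ => (WithLp.toLp 2 (dirv v (Γ τ)) : EuclideanSpace ℝ (Fin 3))) hc hd
  rw [edist_dist, dist_eq_norm, ← WithLp.toLp_sub, ← nrm_eq] at h1
  exact h1

/-- The length, in terms of chords. -/
lemma split {v : V → V} (hv : ContDiff ℝ 2 v) {Γ : ℝ → V} {W D : ℝ} (hD : 0 ≤ D) {b : ℝ}
    (n : ℕ) : ∀ a : ℝ, Arc v Γ a b → (∀ τ ∈ Icc a b, vort v (Γ τ) ≠ 0) →
      (∀ c d, a ≤ c → c ≤ d → d ≤ b → nrm (Γ d - Γ c) ≤ W * (d - c) + D) →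
      dvar v Γ a b < ((n + 1 : ℕ) : ℝ≥0∞) →
      len v Γ a b ≤ 2 * W * (b - a) + 2 * ((n + 1 : ℕ) : ℝ) * D := by
  induction n with
  | zero =>
    intro a hΓ h0 hch hv1
    have h1 := piece hv hΓ h0 fun τ hτ => by
      have h2 := (le_dvar (v := v) (Γ := Γ) hτ ⟨le_rfl, hΓ.1⟩).trans_lt hv1
      have h3 : ((0 + 1 : ℕ) : ℝ≥0∞) = ENNReal.ofReal 1 := by simp
      rw [h3, ENNReal.ofReal_lt_ofReal_iff one_pos] at h2
      exact h2.le
    have h2 := hch a b le_rfl hΓ.1 le_rfl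
    push_cast
    linarith
  | succ n ih =>
    intro a hΓ h0 hch hv1
    have hfc : ContinuousOn (fun τ => nrm (dirv v (Γ τ) - dirv v (Γ a))) (Icc a b) :=
      nrm_cont.comp_continuousOn ((dir_cont hv hΓ h0).sub continuousOn_const)
    by_cases hS : ∃ τ ∈ Icc a b, 1 ≤ nrm (dirv v (Γ τ) - dirv v (Γ a))
    · obtain ⟨S, hSd⟩ : ∃ S : Set ℝ, S = Icc a b ∩
        (fun τ => nrm (dirv v (Γ τ) - dirv v (Γ a))) ⁻¹' Ici 1 := ⟨_, rfl⟩
      have hScl : IsClosed S := by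
        rw [hSd]
        exact hfc.preimage_isClosed_of_isClosed isClosed_Icc isClosed_Ici
      have hSc : IsCompact S :=
        (isCompact_Icc (a := a) (b := b)).of_isClosed_subset hScl (by
          rw [hSd]
          exact inter_subset_left)
      obtain ⟨τ, hτ, hτ1⟩ := hS
      obtain ⟨c, hcS, hcmin⟩ := hSc.exists_isLeast ⟨τ, by rw [hSd]; exact ⟨hτ, hτ1⟩⟩
      have hcI : c ∈ Icc a b := by rw [hSd] at hcS; exact hcS.1
      have hc1 : 1 ≤ nrm (dirv v (Γ c) - dirv v (Γ a)) := by rw [hSd] at hcS; exact hcS.2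
      have hac : a < c := by
        refine lt_of_le_of_ne hcI.1 fun hac => ?_
        rw [← hac, sub_self, nrm_eq] at hc1
        simp at hc1
        linarith
      have hlt : ∀ q ∈ Ico a c, nrm (dirv v (Γ q) - dirv v (Γ a)) < 1 := by
        intro q hq
        by_contra hcon
        have h1 : q ∈ S := by
          rw [hSd]
          exact ⟨⟨hq.1, hq.2.le.trans hcI.2⟩, not_lt.1 hcon⟩
        exact absurd (hcmin h1) (not_le.2 hq.2)
      have hle : ∀ q ∈ Icc a c, nrm (dirv v (Γ q) - dirv v (Γ a)) ≤ 1 := by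
        intro q hq
        rcases lt_or_eq_of_le hq.2 with h1 | h1
        · exact (hlt q ⟨hq.1, h1⟩).le
        · rw [h1]
          have h2 : Tendsto (fun τ => nrm (dirv v (Γ τ) - dirv v (Γ a))) (𝓝[Ico a c] c)
              (𝓝 (nrm (dirv v (Γ c) - dirv v (Γ a)))) :=
            (hfc c hcI).mono_left (nhdsWithin_mono _ fun q hq => ⟨hq.1, hq.2.le.trans hcI.2⟩)
          have : (𝓝[Ico a c] c).NeBot := by
            rw [← mem_closure_iff_nhdsWithin_neBot, closure_Ico hac.ne]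
            exact ⟨hac.le, le_rfl⟩
          refine le_of_tendsto h2 ?_
          filter_upwards [self_mem_nhdsWithin] with q hq using (hlt q hq).le
      have h1 := piece hv (hΓ.mono le_rfl hac.le hcI.2)
        (fun q hq => h0 q ⟨hq.1, hq.2.trans hcI.2⟩) hle
      have h2 := hch a c le_rfl hac.le hcI.2
      have h3 : dvar v Γ c b < ((n + 1 : ℕ) : ℝ≥0∞) := by
        have h4 : 1 ≤ dvar v Γ a c := by
          refine le_trans ?_ (le_dvar (v := v) (Γ := Γ) (c := c) (d := a) ⟨hac.le, le_rfl⟩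
            ⟨le_rfl, hac.le⟩)
          rw [← ENNReal.ofReal_one]
          exact ENNReal.ofReal_le_ofReal hc1
        have h5 := dvar_add (v := v) (Γ := Γ) hac.le hcI.2
        by_contra hcon
        have h6 : ((n + 1 + 1 : ℕ) : ℝ≥0∞) ≤ dvar v Γ a b := by
          rw [← h5]
          push_cast
          rw [add_comm]
          refine add_le_add h4 ?_
          have := not_lt.1 hcon
          push_cast at this
          exact this
        exact absurd hv1 (not_lt.2 h6)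
      have h4 := ih c (hΓ.mono hac.le hcI.2 le_rfl)
        (fun q hq => h0 q ⟨hac.le.trans hq.1, hq.2⟩)
        (fun x y hx hxy hy => hch x y (hac.le.trans hx) hxy hy) h3
      rw [len_add hv hΓ hac.le hcI.2]
      push_cast at h4 ⊢
      nlinarith
    · push Not at hS
      have h1 := piece hv hΓ h0 fun τ hτ => (hS τ hτ).le
      have h2 := hch a b le_rfl hΓ.1 le_rfl
      have h3 : (0 : ℝ) ≤ n := Nat.cast_nonneg n
      push_cast
      nlinarith [mul_nonneg h3 hD]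

/-- The length of the arcs of the vortex lines. -/
theorem len_bound (h : IsC2Solution T u p) {s t : ℝ} (hs : 0 < s) (hst : s ≤ t) (ht : t < T)
    {a b : ℝ} {Γ : ℝ → V} (hΓ : Arc (u t) Γ a b) (h0 : ∀ τ ∈ Icc a b, vort (u t) (Γ τ) ≠ 0)
    {W : ℝ} (hW : ∀ x, nrm (vort (u s) x) ≤ W)
    {D : ℝ → ℝ} (hDi : IntervalIntegrable D volume s t)
    (hD : ∀ σ ∈ Ioo s t, ∀ x y, nrm (u σ x - u σ y) ≤ D σ)
    {K : ℝ} (hK : 0 ≤ K) (hKd : dvar (u t) Γ a b ≤ ENNReal.ofReal K) :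
    len (u t) Γ a b ≤ 2 * W * (b - a) + 2 * (K + 1) * ∫ σ in s..t, D σ := by
  have hD0 : 0 ≤ ∫ σ in s..t, D σ := by
    refine intervalIntegral.integral_nonneg_of_ae_restrict hst ?_
    have h3 : ∀ᵐ q : ℝ, q ≠ s ∧ q ≠ t := by
      have h4 : ∀ᵐ q : ℝ, q ≠ s := by simp [ae_iff, measure_singleton]
      have h5 : ∀ᵐ q : ℝ, q ≠ t := by simp [ae_iff, measure_singleton]
      filter_upwards [h4, h5] with q h6 h7 using ⟨h6, h7⟩
    refine (ae_restrict_iff' measurableSet_Icc).2 ?_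
    filter_upwards [h3] with q hq hqI
    have := hD q ⟨lt_of_le_of_ne hqI.1 (Ne.symm hq.1), lt_of_le_of_ne hqI.2 hq.2⟩ 0 0
    exact (nrm_nonneg _).trans this
  have h1 := split (slice_cont h ⟨hs.trans_le hst, ht⟩) hD0 ⌊K⌋₊ a hΓ h0
    (fun c d hc hcd hd => chord h hs hst ht (hΓ.mono hc hcd hd) hW hDi hD) (by
      refine hKd.trans_lt ?_
      have h2 : K < ((⌊K⌋₊ + 1 : ℕ) : ℝ) := by
        push_cast
        exact Nat.lt_floor_add_one K
      calc ENNReal.ofReal K < ENNReal.ofReal ((⌊K⌋₊ + 1 : ℕ) : ℝ) :=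
            (ENNReal.ofReal_lt_ofReal_iff (by positivity)).2 h2
        _ = _ := ENNReal.ofReal_natCast _)
  refine h1.trans ?_
  have h2 : ((⌊K⌋₊ + 1 : ℕ) : ℝ) ≤ K + 1 := by
    push_cast
    linarith [Nat.floor_le hK]
  have h3 := mul_le_mul_of_nonneg_right h2 hD0
  linarith

/-- Arcs in the region of large vorticity. -/
theorem len_bound4 (h : IsC2Solution T u p) {s t : ℝ} (hs : 0 < s) (hst : s ≤ t) (ht : t < T)
    {a b : ℝ} {Γ : ℝ → V} (hΓ : Arc (u t) Γ a b) (h0 : ∀ τ ∈ Icc a b, vort (u t) (Γ τ) ≠ 0)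
    {W : ℝ} (hW : ∀ x, nrm (vort (u s) x) ≤ W)
    {D : ℝ → ℝ} (hDi : IntervalIntegrable D volume s t)
    (hD : ∀ σ ∈ Ioo s t, ∀ x y, nrm (u σ x - u σ y) ≤ D σ)
    {K : ℝ} (hK : 0 ≤ K) (hKd : dvar (u t) Γ a b ≤ ENNReal.ofReal K)
    (h4 : ∀ τ ∈ Icc a b, 4 * W ≤ nrm (vort (u t) (Γ τ))) :
    len (u t) Γ a b ≤ 4 * (K + 1) * ∫ σ in s..t, D σ := by
  have h1 := len_bound h hs hst ht hΓ h0 hW hDi hD hK hKd
  have h2 : 4 * W * (b - a) ≤ len (u t) Γ a b := by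
    have h3 : ∫ _τ in a..b, 4 * W ≤ len (u t) Γ a b := by
      unfold len
      refine intervalIntegral.integral_mono_on hΓ.1 intervalIntegrable_const ?_ h4
      exact (nrm_cont.comp_continuousOn (arc_cont (slice_cont h ⟨hs.trans_le hst, ht⟩)
        hΓ)).intervalIntegrable_of_Icc hΓ.1
    rw [intervalIntegral.integral_const, smul_eq_mul] at h3
    linarith
  linarith

/-- Arcs in the region of large vorticity. -/
theorem len_bound' (h : IsC2Solution T u p) {s t : ℝ} (hs : 0 < s) (hst : s ≤ t) (ht : t < T)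
    {a b : ℝ} {Γ : ℝ → V} (hΓ : Arc (u t) Γ a b)
    {W lam : ℝ} (hlam : 0 < lam) (h0 : ∀ τ ∈ Icc a b, lam ≤ nrm (vort (u t) (Γ τ)))
    (hW : ∀ x, nrm (vort (u s) x) ≤ W) (hWl : 4 * W ≤ lam)
    {D : ℝ → ℝ} (hDi : IntervalIntegrable D volume s t)
    (hD : ∀ σ ∈ Ioo s t, ∀ x y, nrm (u σ x - u σ y) ≤ D σ)
    {K : ℝ} (hK : 0 ≤ K) (hKd : dvar (u t) Γ a b ≤ ENNReal.ofReal K) :
    len (u t) Γ a b ≤ 4 * (K + 1) * ∫ σ in s..t, D σ :=
  len_bound4 h hs hst ht hΓ (fun τ hτ h2 => by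
    have h3 := h0 τ hτ
    rw [h2, nrm_eq] at h3
    simp at h3
    linarith) hW hDi hD hK hKd (fun τ hτ => hWl.trans (h0 τ hτ))

end Pool.Agent.U481.LN
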