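import Pool.Agent.U481.LN.Fin

/-!
A lower bound of the rate of blow-up from long arcs of vortex lines.
-/

open MeasureTheory Set Filter Metric
open scoped ENNReal NNReal Topology

set_option autoImplicit false

namespace Pool.Agent.U481.LN

open Pool.Agent.H708R2.EulerSign Pool.Agent.H708R2.EulerTypeI Pool.Agent.W786.Dir
  Pool.Agent.W786.Max Pool.Agent.U481.EU

variable {T : ℝ} {u : ℝ → V → V} {p : ℝ → V → ℝ}

/-- A long arc in the region of large vorticity. -/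
def Long (η r : ℝ) (v : V → V) : Prop :=
  ∃ (Γ : ℝ → V) (a b K : ℝ), 0 ≤ K ∧ Arc v Γ a b ∧
    (∀ τ ∈ Icc a b, ∀ x, η * nrm (vort v x) ≤ nrm (vort v (Γ τ))) ∧
    dvar v Γ a b ≤ ENNReal.ofReal K ∧ r * (K + 1) ≤ len v Γ a b

lemma nrm_le_of_Mx (h : IsC2Solution T u p) {t F : ℝ} (ht : t ∈ Ico 0 T) (hF : 0 ≤ F)
    (hM : Mx u t ≤ F ^ 2) (x : V) : nrm (vort (u t) x) ≤ F := by
  have h1 := (Wq_le h.sol ht x).trans hM
  rw [Wq_eq] at h1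
  exact le_of_sq_le_sq h1 hF

/-- The first time at which the vorticity reaches the next level, and the long arc. -/
theorem reach (h : IsC2Solution T u p) (hB : ¬ BKMFinite T u) {η Q s F : ℝ} {r : ℝ → ℝ}
    (hQ1 : 1 < Q) (hs : 0 < s) (hsT : s < T) (hFp : 0 < F)
    (hF : ∀ x, nrm (vort (u s) x) ≤ F) (hlong : ∀ t ∈ Ioo s T, Long η (r t) (u t)) :
    ∃ t₁ ∈ Ioo s T, (∀ σ ∈ Icc s t₁, ∀ x, nrm (vort (u σ) x) ≤ Q * F) ∧
      ∃ (Γ : ℝ → V) (a b K : ℝ), 0 ≤ K ∧ Arc (u t₁) Γ a b ∧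
        (∀ τ ∈ Icc a b, η * (Q * F) ≤ nrm (vort (u t₁) (Γ τ))) ∧
        dvar (u t₁) Γ a b ≤ ENNReal.ofReal K ∧ r t₁ * (K + 1) ≤ len (u t₁) Γ a b := by
  have hQ0 : 0 < Q := one_pos.trans hQ1
  have hQF : 0 < Q * F := by positivity
  have hFQF : F < Q * F := by nlinarith
  obtain ⟨t', ht', ht'0, ht'M⟩ := unb h hB hsT ((Q * F) ^ 2)
  obtain ⟨C, hC0, hC⟩ := Mx_growth h ht'.2
  have hsM : Mx u s ≤ F ^ 2 := Mx_le hF
  obtain ⟨t₁, ht₁, ht₁M, ht₁σ⟩ := first (f := Mx u) (C := 2 * C) (L := (Q * F) ^ 2) ht'.1.le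
    (fun σ τ h1 h2 h3 => hC σ ⟨hs.le.trans h1, h2.trans h3⟩ τ
      ⟨(hs.le.trans h1).trans h2, h3⟩ h2)
    (hsM.trans_lt (by gcongr)) ht'M.le
  have ht₁T : t₁ < T := ht₁.2.trans_lt ht'.2
  have ht₁0 : 0 < t₁ := hs.trans ht₁.1
  have hb : ∀ σ ∈ Icc s t₁, ∀ x, nrm (vort (u σ) x) ≤ Q * F := fun σ hσ x =>
    nrm_le_of_Mx h ⟨hs.le.trans hσ.1, hσ.2.trans_lt ht₁T⟩ hQF.le (ht₁σ σ hσ) x
  refine ⟨t₁, ⟨ht₁.1, ht₁T⟩, hb, ?_⟩
  obtain ⟨Γ, a, b, K, hK, hΓ, hmax, hvar, hlen⟩ := hlong t₁ ⟨ht₁.1, ht₁T⟩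
  obtain ⟨x, hx⟩ := exists_isMaxPt h.sol (t := t₁) ⟨ht₁0.le, ht₁T⟩
  have hxM : nrm (vort (u t₁) x) = Q * F := by
    have h1 := Mx_eq h.sol ⟨ht₁0.le, ht₁T⟩ hx
    rw [Wq_eq, ht₁M] at h1
    exact ((pow_left_inj₀ hQF.le (nrm_nonneg _) two_ne_zero).1 h1).symm
  exact ⟨Γ, a, b, K, hK, hΓ, fun τ hτ => by rw [← hxM]; exact hmax τ hτ x, hvar, hlen⟩

/-- From one level of the vorticity to the next one. -/
theorem step (h : IsC2Solution T u p) (hB : ¬ BKMFinite T u) {E η c₀ δ Q s F : ℝ} (hE0 : 0 < E)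
    (hE : ener (u 0) ≤ E) (hη : 0 < η) (hQ : 4 ≤ η * Q) (hQ1 : 1 < Q) (hs : 0 < s) (hsT : s < T)
    (hF0 : E ^ (1 / 2 : ℝ) ≤ F) (hF : ∀ x, nrm (vort (u s) x) ≤ F)
    (hlong : ∀ t ∈ Ioo s T, Long η (c₀ * (T - t) ^ δ) (u t)) :
    ∃ t₁ ∈ Ioo s T, (∀ σ ∈ Icc s t₁, ∀ x, nrm (vort (u σ) x) ≤ Q * F) ∧
      c₀ * (T - t₁) ^ δ ≤ 16 * Cv * E ^ (1 / 5 : ℝ) * Q ^ (3 / 5 : ℝ)
        * ((t₁ - s) * F ^ (3 / 5 : ℝ)) := by
  have hEp : 0 < E ^ (1 / 2 : ℝ) := Real.rpow_pos_of_pos hE0 _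
  have hFp : 0 < F := hEp.trans_le hF0
  have hQ0 : 0 < Q := one_pos.trans hQ1
  have hQF : 0 < Q * F := by positivity
  have hFQF : F < Q * F := by nlinarith
  have hCv := Cv_pos
  obtain ⟨t₁, ht₁, hb, Γ, a, b, K, hK, hΓ, hmax, hvar, hlen⟩ := reach h hB hQ1 hs hsT hFp hF hlong
  refine ⟨t₁, ht₁, hb, ?_⟩
  have h1 := len_M h hs ht₁.1.le ht₁.2 hΓ (W := F) (lam := η * (Q * F)) (by positivity)
    hmax hF (by nlinarith) (M := fun _ => Q * F)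
    intervalIntegrable_const (fun σ hσ x => hb σ (Ioo_subset_Icc_self hσ) x) hE0 hE hK hvar
  rw [intervalIntegral.integral_const, smul_eq_mul] at h1
  have h2 : E ^ (1 / 2 : ℝ) ≤ E ^ (1 / 5 : ℝ) * (Q * F) ^ (3 / 5 : ℝ) := by
    have h3 : E ^ (1 / 2 : ℝ) = E ^ (1 / 5 : ℝ) * (E ^ (1 / 2 : ℝ)) ^ (3 / 5 : ℝ) := by
      rw [← Real.rpow_mul hE0.le, ← Real.rpow_add hE0]
      norm_num
    rw [h3]
    have h4 : (E ^ (1 / 2 : ℝ)) ^ (3 / 5 : ℝ) ≤ (Q * F) ^ (3 / 5 : ℝ) :=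
      Real.rpow_le_rpow hEp.le (hF0.trans hFQF.le) (by norm_num)
    exact mul_le_mul_of_nonneg_left h4 (by positivity)
  have h3 : 0 ≤ t₁ - s := by linarith [ht₁.1]
  have h4 : len (u t₁) Γ a b ≤ (16 * Cv * E ^ (1 / 5 : ℝ) * Q ^ (3 / 5 : ℝ)
      * ((t₁ - s) * F ^ (3 / 5 : ℝ))) * (K + 1) := by
    refine h1.trans ?_
    calc 8 * Cv * (K + 1) * ((t₁ - s) * (E ^ (1 / 5 : ℝ) * (Q * F) ^ (3 / 5 : ℝ)
          + E ^ (1 / 2 : ℝ)))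
        ≤ 8 * Cv * (K + 1) * ((t₁ - s) * (E ^ (1 / 5 : ℝ) * (Q * F) ^ (3 / 5 : ℝ)
          + E ^ (1 / 5 : ℝ) * (Q * F) ^ (3 / 5 : ℝ))) := by gcongr
      _ = _ := by
          rw [Real.mul_rpow hQ0.le hFp.le]
          ring
  exact le_of_mul_le_mul_right (hlen.trans h4) (by linarith)

/-- If the vorticity needs geometrically decreasing times to reach the next level then the
Beale-Kato-Majda integral is finite. -/
theorem iter_gen (h : IsC2Solution T u p) {Q ρ s F : ℝ} (hQ1 : 1 < Q) (hρ0 : 0 < ρ) (hρ1 : ρ < 1)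
    (hρ3 : Q ^ 2 * ρ ≤ 1) (hs : 0 < s) (hsT : s < T) (hFp : 0 < F)
    (hF : ∀ x, nrm (vort (u s) x) ≤ F)
    (hst : ∀ (k : ℕ) (s' : ℝ), s' ∈ Ico s T → (∀ x, nrm (vort (u s') x) ≤ Q ^ k * F) →
      T - s' ≤ ρ ^ k * (T - s) → ∃ t₁ ∈ Ioo s' T,
        (∀ σ ∈ Icc s' t₁, ∀ x, nrm (vort (u σ) x) ≤ Q * (Q ^ k * F)) ∧
        T - t₁ ≤ ρ * (T - s')) : BKMFinite T u := by
  have hQ0 : 0 < Q := one_pos.trans hQ1
  have hT : 0 < T := hs.trans hsT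
  obtain ⟨R, hR⟩ : ∃ R, R = T - s := ⟨_, rfl⟩
  have hR0 : 0 < R := by rw [hR]; linarith
  rw [← hR] at hst
  obtain ⟨C, hC⟩ : ∃ C, C = Q * F * R ^ (1 / 2 : ℝ) := ⟨_, rfl⟩
  have hC0 : 0 < C := by rw [hC]; positivity
  -- the pointwise bound at the `k`-th level
  have key : ∀ (k : ℕ) (q : ℝ), 0 < q → q ≤ ρ ^ k * R →
      Q * (Q ^ k * F) ≤ C * q ^ (-(1 / 2) : ℝ) := by
    intro k q hq0 hq
    have h1 : q ≤ R / (Q ^ k) ^ 2 := by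
      rw [le_div_iff₀ (by positivity)]
      have h2 : ρ ^ k * (Q ^ k) ^ 2 ≤ 1 := by
        rw [← pow_mul, mul_comm k 2, pow_mul, ← mul_pow, mul_comm]
        exact pow_le_one₀ (by positivity) hρ3
      calc q * (Q ^ k) ^ 2 ≤ ρ ^ k * R * (Q ^ k) ^ 2 := by gcongr
        _ = (ρ ^ k * (Q ^ k) ^ 2) * R := by ring
        _ ≤ 1 * R := by gcongr
        _ = R := one_mul R
    have h2 : (R / (Q ^ k) ^ 2) ^ (-(1 / 2) : ℝ) ≤ q ^ (-(1 / 2) : ℝ) :=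
      Real.rpow_le_rpow_of_nonpos hq0 h1 (by norm_num)
    have h3 : (R / (Q ^ k) ^ 2) ^ (-(1 / 2) : ℝ) = Q ^ k / R ^ (1 / 2 : ℝ) := by
      rw [Real.rpow_neg (by positivity), Real.div_rpow hR0.le (by positivity),
        ← Real.sqrt_eq_rpow ((Q ^ k) ^ 2), Real.sqrt_sq (by positivity), inv_div]
    rw [h3] at h2
    have h4 : Q * (Q ^ k * F) = C * (Q ^ k / R ^ (1 / 2 : ℝ)) := by
      rw [hC]
      have : R ^ (1 / 2 : ℝ) ≠ 0 := (Real.rpow_pos_of_pos hR0 _).ne'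
      field_simp
    rw [h4]
    exact mul_le_mul_of_nonneg_left h2 hC0.le
  have claim : ∀ k : ℕ, ∃ s' ∈ Ico s T, (∀ x, nrm (vort (u s') x) ≤ Q ^ k * F) ∧
      T - s' ≤ ρ ^ k * R ∧ ∀ t ∈ Icc s s', ∀ x,
        nrm (vort (u t) x) ≤ C * (T - t) ^ (-(1 / 2) : ℝ) := by
    intro k
    induction k with
    | zero =>
      refine ⟨s, ⟨le_rfl, hsT⟩, fun x => by rw [pow_zero, one_mul]; exact hF x,
        by rw [pow_zero, one_mul, hR], fun t ht x => ?_⟩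
      have h1 : t = s := le_antisymm ht.2 ht.1
      rw [h1, ← hR]
      have h2 := key 0 R hR0 (by rw [pow_zero, one_mul])
      rw [pow_zero, one_mul] at h2
      have h3 := hF x
      nlinarith
    | succ k ih =>
      obtain ⟨s', hs', hM, hr, hb⟩ := ih
      obtain ⟨t₁, ht₁, hb₁, hrr⟩ := hst k s' hs' hM hr
      refine ⟨t₁, ⟨hs'.1.trans ht₁.1.le, ht₁.2⟩, fun x => ?_, ?_, fun t ht x => ?_⟩
      · refine (hb₁ t₁ ⟨ht₁.1.le, le_rfl⟩ x).trans (le_of_eq ?_)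
        rw [pow_succ]
        ring
      · calc T - t₁ ≤ ρ * (T - s') := hrr
          _ ≤ ρ * (ρ ^ k * R) := by gcongr
          _ = _ := by rw [pow_succ]; ring
      · rcases le_or_gt t s' with h1 | h1
        · exact hb t ⟨ht.1, h1⟩ x
        · refine (hb₁ t ⟨h1.le, ht.2⟩ x).trans ?_
          refine key k (T - t) (by linarith [ht.2, ht₁.2]) ?_
          linarith
  refine bkm_half h hT ⟨hs, hsT⟩ hC0.le fun t ht x => ?_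
  obtain ⟨k, hk⟩ := exists_pow_lt_of_lt_one (show 0 < (T - t) / R by
    have : 0 < T - t := by linarith [ht.2]
    positivity) hρ1
  obtain ⟨s', hs', _, hr, hb⟩ := claim k
  refine hb t ⟨ht.1, ?_⟩ x
  rw [lt_div_iff₀ hR0] at hk
  linarith

/-- The iteration. -/
theorem iter (h : IsC2Solution T u p) (hB : ¬ BKMFinite T u) {E η c₀ δ Q ρ s F : ℝ} (hE0 : 0 < E)
    (hE : ener (u 0) ≤ E) (hη : 0 < η) (hc₀ : 0 < c₀) (hδ0 : 0 ≤ δ) (hδ : δ < 1)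
    (hQ : 4 ≤ η * Q) (hQ1 : 1 < Q) (hρ0 : 0 < ρ) (hρ1 : ρ < 1) (hρ2 : Q ^ (3 / 5 : ℝ) * ρ ^ (1 - δ) ≤ 1)
    (hρ3 : Q ^ 2 * ρ ≤ 1) (hs : 0 < s) (hsT : s < T)
    (hF0 : E ^ (1 / 2 : ℝ) ≤ F) (hF : ∀ x, nrm (vort (u s) x) ≤ F)
    (hlong : ∀ t ∈ Ioo s T, Long η (c₀ * (T - t) ^ δ) (u t)) :
    c₀ * ρ ^ δ / (16 * Cv * E ^ (1 / 5 : ℝ) * Q ^ (3 / 5 : ℝ))
      < (T - s) ^ (1 - δ) * F ^ (3 / 5 : ℝ) := by
  by_contra hcon
  push Not at hcon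
  have hCv := Cv_pos
  have hQ0 : 0 < Q := one_pos.trans hQ1
  have hEp : 0 < E ^ (1 / 2 : ℝ) := Real.rpow_pos_of_pos hE0 _
  have hFp : 0 < F := hEp.trans_le hF0
  obtain ⟨B, hBd⟩ : ∃ B, B = 16 * Cv * E ^ (1 / 5 : ℝ) * Q ^ (3 / 5 : ℝ) := ⟨_, rfl⟩
  have hB0 : 0 < B := by rw [hBd]; positivity
  rw [← hBd, le_div_iff₀ hB0] at hcon
  have hδ1 : 0 < 1 - δ := by linarith
  apply hB
  refine iter_gen h hQ1 hρ0 hρ1 hρ3 hs hsT hFp hF fun k s' hs' hM hr => ?_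
  obtain ⟨R, hR⟩ : ∃ R, R = T - s := ⟨_, rfl⟩
  have hR0 : 0 < R := by rw [hR]; linarith
  rw [← hR] at hcon hr
  have hQk : 1 ≤ Q ^ k := one_le_pow₀ hQ1.le
  have hF' : E ^ (1 / 2 : ℝ) ≤ Q ^ k * F := hF0.trans (le_mul_of_one_le_left hFp.le hQk)
  obtain ⟨t₁, ht₁, hb₁, hin⟩ := step h hB hE0 hE hη hQ hQ1 (hs.trans_le hs'.1) hs'.2 hF' hM
    (fun t ht => hlong t ⟨hs'.1.trans_lt ht.1, ht.2⟩)
  rw [← hBd] at hin
  have hr1 : 0 < T - t₁ := by linarith [ht₁.2]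
  have hr2 : 0 < T - s' := by linarith [hs'.2]
  refine ⟨t₁, ht₁, hb₁, ?_⟩
  by_contra hcon2
  push Not at hcon2
  have h1 : c₀ * (ρ * (T - s')) ^ δ ≤ c₀ * (T - t₁) ^ δ := by
    have h2 := Real.rpow_le_rpow (by positivity) hcon2.le hδ0
    exact mul_le_mul_of_nonneg_left h2 hc₀.le
  have h2 : B * ((t₁ - s') * (Q ^ k * F) ^ (3 / 5 : ℝ))
      < B * ((T - s') * (Q ^ k * F) ^ (3 / 5 : ℝ)) := by
    have h3 : 0 < (Q ^ k * F) ^ (3 / 5 : ℝ) := Real.rpow_pos_of_pos (by positivity) _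
    have h4 : t₁ - s' < T - s' := by linarith
    gcongr
  have h3 : c₀ * (ρ * (T - s')) ^ δ < B * ((T - s') * (Q ^ k * F) ^ (3 / 5 : ℝ)) :=
    (h1.trans hin).trans_lt h2
  have h4 : (T - s') = (T - s') ^ δ * (T - s') ^ (1 - δ) := by
    rw [← Real.rpow_add hr2, add_sub_cancel, Real.rpow_one]
  have h5 : c₀ * ρ ^ δ < B * ((T - s') ^ (1 - δ) * (Q ^ k * F) ^ (3 / 5 : ℝ)) := by
    have h6 : 0 < (T - s') ^ δ := Real.rpow_pos_of_pos hr2 _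
    rw [Real.mul_rpow hρ0.le hr2.le] at h3
    refine lt_of_mul_lt_mul_right ?_ h6.le
    calc c₀ * ρ ^ δ * (T - s') ^ δ = c₀ * (ρ ^ δ * (T - s') ^ δ) := by ring
      _ < B * ((T - s') * (Q ^ k * F) ^ (3 / 5 : ℝ)) := h3
      _ = B * (((T - s') ^ δ * (T - s') ^ (1 - δ)) * (Q ^ k * F) ^ (3 / 5 : ℝ)) := by
          rw [← h4]
      _ = _ := by ring
  have h6 : (T - s') ^ (1 - δ) * (Q ^ k * F) ^ (3 / 5 : ℝ)
      ≤ R ^ (1 - δ) * F ^ (3 / 5 : ℝ) := by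
    have h7 : (T - s') ^ (1 - δ) ≤ (ρ ^ (1 - δ)) ^ k * R ^ (1 - δ) := by
      refine (Real.rpow_le_rpow hr2.le hr hδ1.le).trans (le_of_eq ?_)
      rw [Real.mul_rpow (by positivity) hR0.le, ← Real.rpow_natCast, ← Real.rpow_natCast,
        ← Real.rpow_mul hρ0.le, ← Real.rpow_mul hρ0.le, mul_comm (k : ℝ)]
    have h8 : (Q ^ k * F) ^ (3 / 5 : ℝ) = (Q ^ (3 / 5 : ℝ)) ^ k * F ^ (3 / 5 : ℝ) := by
      rw [Real.mul_rpow (by positivity) hFp.le, ← Real.rpow_natCast, ← Real.rpow_natCast,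
        ← Real.rpow_mul hQ0.le, ← Real.rpow_mul hQ0.le, mul_comm (k : ℝ)]
    have h9 : (Q ^ (3 / 5 : ℝ) * ρ ^ (1 - δ)) ^ k ≤ 1 := pow_le_one₀ (by positivity) hρ2
    rw [h8]
    calc (T - s') ^ (1 - δ) * ((Q ^ (3 / 5 : ℝ)) ^ k * F ^ (3 / 5 : ℝ))
        ≤ ((ρ ^ (1 - δ)) ^ k * R ^ (1 - δ)) * ((Q ^ (3 / 5 : ℝ)) ^ k * F ^ (3 / 5 : ℝ)) := by
          gcongr
      _ = (Q ^ (3 / 5 : ℝ) * ρ ^ (1 - δ)) ^ k * (R ^ (1 - δ) * F ^ (3 / 5 : ℝ)) := by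
          rw [mul_pow]
          ring
      _ ≤ 1 * (R ^ (1 - δ) * F ^ (3 / 5 : ℝ)) := by gcongr
      _ = _ := one_mul _
  have h7 := mul_le_mul_of_nonneg_left h6 hB0.le
  linarith

/-- No blow-up if the arcs are long compared with the integral of the velocity. -/
theorem no_blowup (h : IsC2Solution T u p) {η c₀ δ α A : ℝ} (hη : 0 < η)
    (hc₀ : 0 < c₀) (hδ0 : 0 ≤ δ) (hδ : δ < 1 - α) (hA : 0 ≤ A)
    (hU : ∀ᶠ t in 𝓝[<] T, ∀ x y, nrm (u t x - u t y) ≤ A * (T - t) ^ (-α))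
    (hlong : ∀ᶠ t in 𝓝[<] T, Long η (c₀ * (T - t) ^ δ) (u t)) : BKMFinite T u := by
  by_contra hB
  have hT : 0 < T := by
    by_contra hT
    apply hB
    unfold BKMFinite
    rw [Ioo_eq_empty hT]
    simp
  have hα1 : 0 < 1 - α := by linarith
  obtain ⟨ε, hε⟩ : ∃ ε, ε = 1 - α - δ := ⟨_, rfl⟩
  have hε0 : 0 < ε := by rw [hε]; linarith
  obtain ⟨Q, hQ⟩ : ∃ Q, Q = 4 / η + 1 := ⟨_, rfl⟩
  have hQ1 : 1 < Q := by
    rw [hQ]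
    have : 0 < 4 / η := by positivity
    linarith
  have hQ0 : 0 < Q := one_pos.trans hQ1
  have hQη : 4 ≤ η * Q := by
    rw [hQ]
    have : η * (4 / η + 1) = 4 + η := by field_simp
    linarith
  obtain ⟨ρ, hρ⟩ : ∃ ρ, ρ = (Q ^ 2)⁻¹ := ⟨_, rfl⟩
  have hρ0 : 0 < ρ := by rw [hρ]; positivity
  have hρ1 : ρ < 1 := by rw [hρ]; exact inv_lt_one_of_one_lt₀ (one_lt_pow₀ hQ1 two_ne_zero)
  have hρ3 : Q ^ 2 * ρ ≤ 1 := by rw [hρ, mul_inv_cancel₀ (by positivity)]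
  obtain ⟨T₁, hT₁, hT₁l⟩ := (mem_nhdsLT_iff_exists_Ioo_subset' (sub_one_lt T)).1
    (hlong.and hU)
  obtain ⟨B, hBd⟩ : ∃ B, B = 4 * (A / (1 - α) + 1) := ⟨_, rfl⟩
  have hB0 : 0 < B := by rw [hBd]; positivity
  obtain ⟨R₀, hR₀⟩ : ∃ R₀, R₀ = (c₀ * ρ ^ δ / B) ^ (1 / ε) := ⟨_, rfl⟩
  have hR₀0 : 0 < R₀ := by rw [hR₀]; positivity
  have hR₀e : B * R₀ ^ ε = c₀ * ρ ^ δ := by
    rw [hR₀, ← Real.rpow_mul (by positivity), one_div, inv_mul_cancel₀ hε0.ne', Real.rpow_one]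
    field_simp
  obtain ⟨s, hs1, hs2⟩ := exists_between (show max (max T₁ 0) (T - R₀) < T from
    max_lt (max_lt hT₁ hT) (by linarith))
  have hsT₁ : T₁ < s := (le_max_left _ _).trans_lt ((le_max_left _ _).trans_lt hs1)
  have hs0 : 0 < s := (le_max_right _ _).trans_lt ((le_max_left _ _).trans_lt hs1)
  have hsR : T - s < R₀ := by linarith [(le_max_right _ _).trans_lt hs1]
  obtain ⟨x, hx⟩ := exists_isMaxPt h.sol (t := s) ⟨hs0.le, hs2⟩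
  have hFp : 0 < nrm (vort (u s) x) + 1 := by linarith [nrm_nonneg (vort (u s) x)]
  apply hB
  refine iter_gen h hQ1 hρ0 hρ1 hρ3 hs0 hs2 hFp (fun y => by linarith [hx y])
    fun k s' hs' hM hr => ?_
  have hFk : 0 < Q ^ k * (nrm (vort (u s) x) + 1) := by positivity
  obtain ⟨t₁, ht₁, hb, Γ, a, b, K, hK, hΓ, hmax, hvar, hlen⟩ := reach h hB hQ1
    (hs0.trans_le hs'.1) hs'.2 hFk hM (η := η) (r := fun t => c₀ * (T - t) ^ δ)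
    (fun t ht => (hT₁l ⟨hsT₁.trans_le (hs'.1.trans ht.1.le), ht.2⟩).1)
  refine ⟨t₁, ht₁, hb, ?_⟩
  have hr1 : 0 < T - t₁ := by linarith [ht₁.2]
  have hr2 : 0 < T - s' := by linarith [hs'.2]
  obtain ⟨hi1, hi2⟩ := int_rate (T := T) (s := s') (t := t₁) ht₁.1.le ht₁.2 (β := α) (by linarith)
  have h1 := len_bound' h (hs0.trans_le hs'.1) ht₁.1.le ht₁.2 hΓ (by positivity) hmax hM
    (by nlinarith) (hi1.const_mul A)
    (fun σ hσ y z => (hT₁l ⟨hsT₁.trans_le (hs'.1.trans hσ.1.le), hσ.2.trans ht₁.2⟩).2 y z) hK hvar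
  rw [intervalIntegral.integral_const_mul] at h1
  have h2 : c₀ * (T - t₁) ^ δ ≤ 4 * (A * ((T - s') ^ (1 - α) / (1 - α))) := by
    refine le_of_mul_le_mul_right (a := K + 1) ((hlen.trans h1).trans ?_) (by linarith)
    have h3 := mul_le_mul_of_nonneg_left hi2 hA
    nlinarith
  have h3 : c₀ * (T - t₁) ^ δ < B * (T - s') ^ (1 - α) := by
    have h4 : 0 < (T - s') ^ (1 - α) := Real.rpow_pos_of_pos hr2 _
    rw [hBd]
    calc c₀ * (T - t₁) ^ δ ≤ 4 * (A / (1 - α)) * (T - s') ^ (1 - α) := by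
          refine h2.trans (le_of_eq ?_)
          ring
      _ < _ := by nlinarith
  by_contra hcon2
  push Not at hcon2
  have h4 : c₀ * (ρ * (T - s')) ^ δ ≤ c₀ * (T - t₁) ^ δ := by
    have h5 := Real.rpow_le_rpow (by positivity) hcon2.le hδ0
    exact mul_le_mul_of_nonneg_left h5 hc₀.le
  rw [Real.mul_rpow hρ0.le hr2.le] at h4
  have h5 : (T - s') ^ (1 - α) = (T - s') ^ ε * (T - s') ^ δ := by
    rw [← Real.rpow_add hr2, hε]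
    congr 1
    ring
  have h6 : (T - s') ^ ε ≤ R₀ ^ ε := by
    refine Real.rpow_le_rpow hr2.le ?_ hε0.le
    linarith [hs'.1]
  have h7 : 0 < (T - s') ^ δ := Real.rpow_pos_of_pos hr2 _
  have h8 : B * (T - s') ^ (1 - α) ≤ c₀ * ρ ^ δ * (T - s') ^ δ := by
    rw [h5, ← hR₀e]
    have h9 := mul_le_mul_of_nonneg_left h6 hB0.le
    have h10 := mul_le_mul_of_nonneg_right h9 h7.le
    linarith
  linarith

/-- The lower bound of the rate. -/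
theorem rate_low (E η c₀ δ : ℝ) (hE0 : 0 < E) (hη : 0 < η) (hc₀ : 0 < c₀) (hδ0 : 0 ≤ δ)
    (hδ : δ < 1) : ∃ c : ℝ, 0 < c ∧ ∀ (T : ℝ) (u : ℝ → V → V) (p : ℝ → V → ℝ),
    IsC2Solution T u p → ener (u 0) ≤ E → ¬ BKMFinite T u →
    (∀ᶠ t in 𝓝[<] T, Long η (c₀ * (T - t) ^ δ) (u t)) →
    ∀ᶠ t in 𝓝[<] T, ∃ x, c * (T - t) ^ (-(5 * (1 - δ) / 3)) ≤ nrm (vort (u t) x) := by
  have hCv := Cv_pos
  have hδ1 : 0 < 1 - δ := by linarith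
  obtain ⟨Q, hQ⟩ : ∃ Q, Q = 4 / η + 1 := ⟨_, rfl⟩
  have hQ1 : 1 < Q := by
    rw [hQ]
    have : 0 < 4 / η := by positivity
    linarith
  have hQ0 : 0 < Q := one_pos.trans hQ1
  have hQη : 4 ≤ η * Q := by
    rw [hQ]
    have : η * (4 / η + 1) = 4 + η := by field_simp
    linarith
  obtain ⟨N, hN⟩ : ∃ N, N = 2 + 1 / (1 - δ) := ⟨_, rfl⟩
  have hN0 : 0 < N := by rw [hN]; positivity
  obtain ⟨ρ, hρ⟩ : ∃ ρ, ρ = Q ^ (-N) := ⟨_, rfl⟩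
  have hρ0 : 0 < ρ := by rw [hρ]; exact Real.rpow_pos_of_pos hQ0 _
  have hρ1 : ρ < 1 := by rw [hρ]; exact Real.rpow_lt_one_of_one_lt_of_neg hQ1 (by linarith)
  have hρ2 : Q ^ (3 / 5 : ℝ) * ρ ^ (1 - δ) ≤ 1 := by
    rw [hρ, ← Real.rpow_mul hQ0.le, ← Real.rpow_add hQ0]
    refine Real.rpow_le_one_of_one_le_of_nonpos hQ1.le ?_
    have h1 : N * (1 - δ) = 2 * (1 - δ) + 1 := by
      rw [hN]
      field_simp
    have h2 : -N * (1 - δ) = -(N * (1 - δ)) := by ring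
    rw [h2, h1]
    linarith
  have hρ3 : Q ^ 2 * ρ ≤ 1 := by
    rw [hρ, ← Real.rpow_natCast, ← Real.rpow_add hQ0]
    refine Real.rpow_le_one_of_one_le_of_nonpos hQ1.le ?_
    have h1 : 0 < 1 / (1 - δ) := by positivity
    push_cast
    linarith
  obtain ⟨ε, hε⟩ : ∃ ε, ε = c₀ * ρ ^ δ / (16 * Cv * E ^ (1 / 5 : ℝ) * Q ^ (3 / 5 : ℝ)) :=
    ⟨_, rfl⟩
  have hε0 : 0 < ε := by rw [hε]; positivity
  obtain ⟨κ, hκ⟩ : ∃ κ, κ = 5 * (1 - δ) / 3 := ⟨_, rfl⟩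
  have hκ0 : 0 < κ := by rw [hκ]; positivity
  refine ⟨ε ^ (5 / 3 : ℝ), by positivity, fun T u p h hE hB hlong => ?_⟩
  have hT : 0 < T := by
    by_contra hT
    apply hB
    unfold BKMFinite
    rw [Ioo_eq_empty hT]
    simp
  obtain ⟨T₁, hT₁, hT₁l⟩ := (mem_nhdsLT_iff_exists_Ioo_subset' (sub_one_lt T)).1 hlong
  obtain ⟨R₀, hR₀⟩ : ∃ R₀, R₀ = (ε ^ (5 / 3 : ℝ) / E ^ (1 / 2 : ℝ)) ^ (1 / κ) := ⟨_, rfl⟩
  have hR₀0 : 0 < R₀ := by rw [hR₀]; positivity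
  have hmem : Ioo (max (max T₁ 0) (T - R₀)) T ∈ 𝓝[<] T :=
    Ioo_mem_nhdsLT (max_lt (max_lt hT₁ hT) (by linarith))
  filter_upwards [hmem] with s hs
  have hs1 : T₁ < s := (le_max_left _ _).trans_lt ((le_max_left _ _).trans_lt hs.1)
  have hs0 : 0 < s := (le_max_right _ _).trans_lt ((le_max_left _ _).trans_lt hs.1)
  have hs2 : T - R₀ < s := (le_max_right _ _).trans_lt hs.1
  have hr0 : 0 < T - s := by linarith [hs.2]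
  obtain ⟨x, hx⟩ := exists_isMaxPt h.sol (t := s) ⟨hs0.le, hs.2⟩
  refine ⟨x, ?_⟩
  obtain ⟨F, hF⟩ : ∃ F, F = max (nrm (vort (u s) x)) (E ^ (1 / 2 : ℝ)) := ⟨_, rfl⟩
  have hFp : 0 < F := by
    rw [hF]
    exact (Real.rpow_pos_of_pos hE0 _).trans_le (le_max_right _ _)
  have h1 := iter h hB hE0 hE hη hc₀ hδ0 hδ hQη hQ1 hρ0 hρ1 hρ2 hρ3 hs0 hs.2
    (F := F) (by rw [hF]; exact le_max_right _ _)
    (fun y => (hx y).trans (by rw [hF]; exact le_max_left _ _))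
    (fun t ht => hT₁l ⟨hs1.trans ht.1, ht.2⟩)
  rw [← hε] at h1
  have h2 : ε ^ (5 / 3 : ℝ) * (T - s) ^ (-κ) < F := by
    have h3 : ε * (T - s) ^ (-(1 - δ)) < F ^ (3 / 5 : ℝ) := by
      rw [Real.rpow_neg hr0.le, ← div_eq_mul_inv, div_lt_iff₀ (Real.rpow_pos_of_pos hr0 _)]
      linarith
    have h4 := Real.rpow_lt_rpow (by positivity) h3 (show (0 : ℝ) < 5 / 3 by norm_num)
    rw [Real.mul_rpow hε0.le (by positivity), ← Real.rpow_mul hr0.le, ← Real.rpow_mul hFp.le] at h4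
    have h5 : -(1 - δ) * (5 / 3) = -κ := by rw [hκ]; ring
    have h6 : (3 / 5 : ℝ) * (5 / 3) = 1 := by norm_num
    rw [h5, h6, Real.rpow_one] at h4
    exact h4
  have h3 : E ^ (1 / 2 : ℝ) ≤ ε ^ (5 / 3 : ℝ) * (T - s) ^ (-κ) := by
    have h4 : (T - s) ^ κ ≤ ε ^ (5 / 3 : ℝ) / E ^ (1 / 2 : ℝ) := by
      have h5 : (T - s) ^ κ ≤ R₀ ^ κ := Real.rpow_le_rpow hr0.le (by linarith) hκ0.le
      have e1 : 1 / κ * κ = 1 := by field_simp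
      rw [hR₀, ← Real.rpow_mul (by positivity), e1, Real.rpow_one] at h5
      exact h5
    have hp : 0 < (T - s) ^ κ := Real.rpow_pos_of_pos hr0 _
    rw [Real.rpow_neg hr0.le, ← div_eq_mul_inv, le_div_iff₀ hp]
    rw [le_div_iff₀ (Real.rpow_pos_of_pos hE0 _)] at h4
    linarith
  rw [hκ] at h2 h3
  rw [hF] at h2
  rcases lt_max_iff.1 h2 with h4 | h4
  · exact h4.le
  · exact absurd h3 (not_le.2 h4)

end Pool.Agent.U481.LN
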