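import Pool.Agent.H708R2.EulerTypeI.Exist

/-!
Vortex lines of the Euler equations are carried by the flow.
-/

open MeasureTheory Set Filter
open scoped ENNReal NNReal Topology

set_option autoImplicit false

namespace Pool.Agent.U481.LN

open Pool.Agent.H708R2.EulerSign Pool.Agent.H708R2.EulerTypeI

variable {T : ℝ} {u : ℝ → V → V} {p : ℝ → V → ℝ}

/-- Gronwall's inequality backwards in time. -/
lemma back_gronwall {E : Type*} [NormedAddCommGroup E] [NormedSpace ℝ E] {f f' : ℝ → E}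
    {a b K ε : ℝ} (hab : a ≤ b) (hK : 0 ≤ K) (hε : 0 ≤ ε)
    (hf : ∀ r ∈ Icc a b, HasDerivWithinAt f (f' r) (Icc a b) r)
    (bound : ∀ r ∈ Icc a b, ‖f' r‖ ≤ K * ‖f r‖ + ε) :
    ‖f a‖ ≤ (‖f b‖ + ε * (b - a)) * Real.exp (K * (b - a)) := by
  have hr : ∀ r ∈ Icc a b, a + b - r ∈ Icc a b := fun r hr => ⟨by linarith [hr.2], by linarith [hr.1]⟩
  have hd : ∀ r ∈ Icc a b, HasDerivWithinAt (fun r => f (a + b - r)) (-f' (a + b - r)) (Icc a b) r := by
    intro r hrI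
    have h1 : HasDerivWithinAt (fun r : ℝ => a + b - r) (-1) (Icc a b) r := by
      simpa using ((hasDerivAt_id r).const_sub (a + b)).hasDerivWithinAt
    have h2 := HasDerivWithinAt.scomp r (hf _ (hr r hrI)) h1 (fun x hx => hr x hx)
    have h3 : (f ∘ fun r : ℝ => a + b - r) = fun r => f (a + b - r) := rfl
    rw [h3, neg_one_smul] at h2
    exact h2
  have hc : ContinuousOn (fun r => f (a + b - r)) (Icc a b) := fun r hrI =>
    (hd r hrI).continuousWithinAt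
  have h3 := norm_le_gronwallBound_of_norm_deriv_right_le (f := fun r => f (a + b - r))
    (f' := fun r => -f' (a + b - r)) (δ := ‖f b‖) (K := K) (ε := ε) hc
    (fun r hrI => right_of_Icc hrI (hd r ⟨hrI.1, hrI.2.le⟩)) (by simp)
    (fun r hrI => by
      rw [norm_neg]
      exact bound _ (hr r ⟨hrI.1, hrI.2.le⟩)) b ⟨hab, le_rfl⟩
  have h4 : f (a + b - b) = f a := by simp
  simp only [h4] at h3
  refine h3.trans ?_
  have hx : 0 ≤ b - a := sub_nonneg.2 hab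
  rcases eq_or_lt_of_le hK with hK0 | hK0
  · rw [← hK0, gronwallBound_K0]
    simp
  · rw [gronwallBound_of_K_ne_0 hK0.ne']
    have h5 : ε / K * (Real.exp (K * (b - a)) - 1) ≤ ε * (b - a) * Real.exp (K * (b - a)) := by
      have h6 : Real.exp (K * (b - a)) - 1 ≤ K * (b - a) * Real.exp (K * (b - a)) := by
        have h7 := Real.add_one_le_exp (-(K * (b - a)))
        have h8 : Real.exp (-(K * (b - a))) * Real.exp (K * (b - a)) = 1 := by
          rw [← Real.exp_add]; simp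
        nlinarith [Real.exp_pos (K * (b - a))]
      calc ε / K * (Real.exp (K * (b - a)) - 1)
          ≤ ε / K * (K * (b - a) * Real.exp (K * (b - a))) := by gcongr
        _ = ε * (b - a) * Real.exp (K * (b - a)) := by field_simp
    nlinarith

/-- Uniform estimates for the differences of the velocity on compact time intervals. -/
lemma quad_diff (h : IsC2Solution T u p) {s t : ℝ} (hs : 0 < s) (ht : t < T) :
    ∃ C : ℝ, 0 ≤ C ∧ ∀ σ ∈ Icc s t, ∀ x y : V, ‖fderiv ℝ (u σ) x‖ ≤ C ∧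
      ‖u σ y - u σ x‖ ≤ C * ‖y - x‖ ∧
      ‖u σ y - u σ x - fderiv ℝ (u σ) x (y - x)‖ ≤ C * ‖y - x‖ ^ 2 := by
  have hsub : ∀ σ ∈ Icc s t, σ ∈ Ioo 0 T := fun σ hσ => ⟨hs.trans_le hσ.1, hσ.2.trans_lt ht⟩
  set U : ℝ × V → V := fun z => u z.1 z.2 with hU
  set G : ℝ × V → (ℝ × V →L[ℝ] V) := fderiv ℝ U with hG
  have hG1 : ContDiffOn ℝ 1 G (Om T) := h.u2.fderiv_of_isOpen isOpen_Om (m := 1) (by norm_num)
  have hGc : ContinuousOn G (Om T) := hG1.continuousOn
  have hHc : ContinuousOn (fderiv ℝ G) (Om T) :=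
    (hG1.fderiv_of_isOpen isOpen_Om (m := 0) (by norm_num)).continuousOn
  have per : ∀ {F : Type} [NormedAddCommGroup F] [NormedSpace ℝ F] (f : ℝ × V → F),
      (∀ z ∈ Om T, ∀ i : Fin 3, f (z + (0, Pi.single i (2 * Real.pi))) = f z) →
      ∀ z ∈ Om T, ∀ i : Fin 3,
        fderiv ℝ f (z + (0, Pi.single i (2 * Real.pi))) = fderiv ℝ f z := by
    intro F _ _ f hf z hz i
    have h1 : fderiv ℝ (fun z => f (z + (0, Pi.single i (2 * Real.pi)))) z
        = fderiv ℝ f (z + (0, Pi.single i (2 * Real.pi))) := fderiv_comp_add_right _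
    rw [← h1]
    apply Filter.EventuallyEq.fderiv_eq
    filter_upwards [isOpen_Om.mem_nhds hz] with w hw
    exact hf w hw i
  have pU : ∀ z ∈ Om T, ∀ i : Fin 3, U (z + (0, Pi.single i (2 * Real.pi))) = U z := by
    intro z hz i
    have := h.sol.periodic_u z.1 ⟨hz.1.1.le, hz.1.2⟩ i z.2
    simpa [hU] using this
  have pG := per U pU
  have pH := per G pG
  obtain ⟨C1, hC10, hC1⟩ := bound_on_slab (f := fun σ x => G (σ, x)) (a := s) (b := t)
    (hGc.mono fun z hz => ⟨hsub z.1 hz.1, mem_univ _⟩) (fun σ hσ i x => by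
      have := pG (σ, x) (mem_Om (hsub σ hσ) x) i
      simpa using this)
  obtain ⟨C2, hC20, hC2⟩ := bound_on_slab (f := fun σ x => fderiv ℝ G (σ, x)) (a := s) (b := t)
    (hHc.mono fun z hz => ⟨hsub z.1 hz.1, mem_univ _⟩) (fun σ hσ i x => by
      have := pH (σ, x) (mem_Om (hsub σ hσ) x) i
      simpa using this)
  have hinr : ‖ContinuousLinearMap.inr ℝ ℝ V‖ ≤ 1 := by
    refine ContinuousLinearMap.opNorm_le_bound _ zero_le_one fun y => ?_
    simp
  have e1 : ∀ σ ∈ Icc s t, ∀ x, HasFDerivAt (u σ) (G (σ, x) ∘L ContinuousLinearMap.inr ℝ ℝ V) x :=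
    fun σ hσ x => slice_hasFDerivAt (h.du (mem_Om (hsub σ hσ) x))
  have e2 : ∀ σ ∈ Icc s t, ∀ x, ‖fderiv ℝ (u σ) x‖ ≤ C1 := by
    intro σ hσ x
    rw [(e1 σ hσ x).fderiv]
    calc _ ≤ ‖G (σ, x)‖ * ‖ContinuousLinearMap.inr ℝ ℝ V‖ := ContinuousLinearMap.opNorm_comp_le _ _
      _ ≤ C1 * 1 := mul_le_mul (hC1 σ hσ x) hinr (norm_nonneg _) hC10
      _ = C1 := mul_one _
  have e3 : ∀ σ ∈ Icc s t, ∀ x y, ‖fderiv ℝ (u σ) y - fderiv ℝ (u σ) x‖ ≤ C2 * ‖y - x‖ := by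
    intro σ hσ x y
    have hd : ∀ z ∈ (univ : Set V), HasFDerivWithinAt (fun z => G (σ, z))
        (fderiv ℝ G (σ, z) ∘L ContinuousLinearMap.inr ℝ ℝ V) univ z := by
      intro z _
      have : HasFDerivAt (fun y : V => ((σ, y) : ℝ × V)) (ContinuousLinearMap.inr ℝ ℝ V) z :=
        hasFDerivAt_prodMk_right σ z
      exact ((h.ddu (mem_Om (hsub σ hσ) z)).hasFDerivAt.comp z this).hasFDerivWithinAt
    have hb : ∀ z ∈ (univ : Set V), ‖fderiv ℝ G (σ, z) ∘L ContinuousLinearMap.inr ℝ ℝ V‖ ≤ C2 := by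
      intro z _
      calc _ ≤ ‖fderiv ℝ G (σ, z)‖ * ‖ContinuousLinearMap.inr ℝ ℝ V‖ :=
            ContinuousLinearMap.opNorm_comp_le _ _
        _ ≤ C2 * 1 := mul_le_mul (hC2 σ hσ z) hinr (norm_nonneg _) hC20
        _ = C2 := mul_one _
    have h1 := convex_univ.norm_image_sub_le_of_norm_hasFDerivWithin_le hd hb (mem_univ x)
      (mem_univ y)
    rw [(e1 σ hσ x).fderiv, (e1 σ hσ y).fderiv, ← ContinuousLinearMap.sub_comp]
    calc _ ≤ ‖G (σ, y) - G (σ, x)‖ * ‖ContinuousLinearMap.inr ℝ ℝ V‖ :=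
          ContinuousLinearMap.opNorm_comp_le _ _
      _ ≤ C2 * ‖y - x‖ * 1 := mul_le_mul h1 hinr (norm_nonneg _) (by positivity)
      _ = _ := mul_one _
  refine ⟨max C1 C2, le_max_of_le_left hC10, fun σ hσ x y => ⟨(e2 σ hσ x).trans (le_max_left _ _),
    ?_, ?_⟩⟩
  · have h1 := convex_univ.norm_image_sub_le_of_norm_fderiv_le (𝕜 := ℝ) (f := u σ) (C := C1)
      (fun z _ => (e1 σ hσ z).differentiableAt) (fun z _ => e2 σ hσ z) (mem_univ x) (mem_univ y)
    exact h1.trans (by gcongr; exact le_max_left _ _)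
  · have h1 := (convex_closedBall x ‖y - x‖).norm_image_sub_le_of_norm_fderiv_le' (𝕜 := ℝ) (f := u σ)
      (φ := fderiv ℝ (u σ) x) (C := C2 * ‖y - x‖) (fun z _ => (e1 σ hσ z).differentiableAt)
      (fun z hz => by
        refine (e3 σ hσ x z).trans ?_
        rw [mem_closedBall_iff_norm] at hz
        gcongr) (x := x) (y := y) (Metric.mem_closedBall_self (norm_nonneg _))
      (by rw [mem_closedBall_iff_norm])
    refine h1.trans ?_
    rw [sq, ← mul_assoc]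
    gcongr
    exact le_max_right _ _

lemma grad_mulVec (v : V → V) (x w : V) : (grad v x).mulVec w = fderiv ℝ v x w := by
  ext i
  rw [← sum_mul_clm]
  simp only [Matrix.mulVec, dotProduct]
  refine Finset.sum_congr rfl fun j _ => ?_
  show fderiv ℝ v x (Pi.single j 1) i * w j = _
  ring

/-- The estimate for two trajectories. -/
lemma carry_est (h : IsC2Solution T u p) {s t : ℝ} (hs : 0 < s) (hst : s ≤ t) (ht : t < T) :
    ∃ K : ℝ, 0 ≤ K ∧ ∀ (X Y : ℝ → V) (r : ℝ), IsTraj u X s t → IsTraj u Y s t →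
      ‖Y s - X s - r • vort (u s) (X s)‖
        ≤ K * (‖Y t - X t - r • vort (u t) (X t)‖ + ‖Y t - X t‖ ^ 2) := by
  obtain ⟨C, hC0, hC⟩ := quad_diff h hs ht
  have hsub : Icc s t ⊆ Ioo 0 T := fun σ hσ => ⟨hs.trans_le hσ.1, hσ.2.trans_lt ht⟩
  obtain ⟨e, he⟩ : ∃ e, e = Real.exp (C * (t - s)) := ⟨_, rfl⟩
  have he0 : 0 < e := by rw [he]; exact Real.exp_pos _
  have hts : 0 ≤ t - s := sub_nonneg.2 hst
  have he1 : 1 ≤ e := by rw [he]; exact Real.one_le_exp (by positivity)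
  refine ⟨(1 + C * e ^ 2 * (t - s)) * e, by positivity, fun X Y r hX hY => ?_⟩
  have h1 : ∀ σ ∈ Icc s t, ‖Y σ - X σ‖ ≤ ‖Y t - X t‖ * e := by
    intro σ hσ
    have hm : Icc σ t ⊆ Icc s t := Icc_subset_Icc_left hσ.1
    have h2 := back_gronwall (f := fun q => Y q - X q) (f' := fun q => u q (Y q) - u q (X q))
      (K := C) (ε := 0) hσ.2 hC0 le_rfl
      (fun q hq => ((hY q (hm hq)).mono hm).sub ((hX q (hm hq)).mono hm))
      (fun q hq => by
        rw [add_zero]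
        exact (hC q (hm hq) (X q) (Y q)).2.1)
    refine h2.trans ?_
    rw [zero_mul, add_zero, he]
    gcongr
    exact hσ.1
  have h3 := back_gronwall (f := fun q => Y q - X q - r • vort (u q) (X q))
    (f' := fun q => u q (Y q) - u q (X q) - r • (grad (u q) (X q)).mulVec (vort (u q) (X q)))
    (K := C) (ε := C * (‖Y t - X t‖ * e) ^ 2) hst hC0 (by positivity)
    (fun q hq => ((hY q hq).sub (hX q hq)).sub ((vort_deriv h hX hsub hq).const_smul r))
    (fun q hq => by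
      have h4 := hC q hq (X q) (Y q)
      have h5 : u q (Y q) - u q (X q) - r • (grad (u q) (X q)).mulVec (vort (u q) (X q))
          = (u q (Y q) - u q (X q) - fderiv ℝ (u q) (X q) (Y q - X q))
            + fderiv ℝ (u q) (X q) (Y q - X q - r • vort (u q) (X q)) := by
        rw [grad_mulVec, map_sub (fderiv ℝ (u q) (X q)) (Y q - X q), map_smul]
        abel
      rw [h5]
      refine (norm_add_le _ _).trans ?_
      have h6 : ‖fderiv ℝ (u q) (X q) (Y q - X q - r • vort (u q) (X q))‖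
          ≤ C * ‖Y q - X q - r • vort (u q) (X q)‖ :=
        (ContinuousLinearMap.le_opNorm _ _).trans
          (mul_le_mul_of_nonneg_right h4.1 (norm_nonneg _))
      have h7 : ‖u q (Y q) - u q (X q) - fderiv ℝ (u q) (X q) (Y q - X q)‖
          ≤ C * (‖Y t - X t‖ * e) ^ 2 := by
        refine h4.2.2.trans ?_
        gcongr
        exact h1 q hq
      linarith)
  refine h3.trans ?_
  rw [← he]
  have h8 : (0 : ℝ) ≤ ‖Y t - X t - r • vort (u t) (X t)‖ := norm_nonneg _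
  have h9 : 0 ≤ C * e ^ 2 * (t - s) := by positivity
  have h10 : 0 ≤ ‖Y t - X t‖ ^ 2 := by positivity
  calc _ = (‖Y t - X t - r • vort (u t) (X t)‖ + C * e ^ 2 * (t - s) * ‖Y t - X t‖ ^ 2) * e := by
        ring
    _ ≤ ((1 + C * e ^ 2 * (t - s)) * (‖Y t - X t - r • vort (u t) (X t)‖ + ‖Y t - X t‖ ^ 2)) * e := by
        refine mul_le_mul_of_nonneg_right ?_ he0.le
        nlinarith [mul_nonneg h9 h8]
    _ = _ := by ring

/-- The vortex lines are carried by the flow. -/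
theorem carry (h : IsC2Solution T u p) {s t : ℝ} (hs : 0 < s) (hst : s ≤ t) (ht : t < T)
    {a b : ℝ} {Γ : ℝ → V}
    (hΓ : ∀ τ ∈ Icc a b, HasDerivWithinAt Γ (vort (u t) (Γ τ)) (Icc a b) τ) :
    ∃ Z : ℝ → V, (∀ τ ∈ Icc a b, HasDerivWithinAt Z (vort (u s) (Z τ)) (Icc a b) τ) ∧
      ∀ τ ∈ Icc a b, ∃ X : ℝ → V, IsTraj u X s t ∧ X s = Z τ ∧ X t = Γ τ := by
  have hex : ∀ τ : ℝ, ∃ X : ℝ → V, IsTraj u X s t ∧ X t = Γ τ := fun τ =>
    exists_traj h.sol hs.le hst ht (Γ τ)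
  choose X hX1 hX2 using hex
  refine ⟨fun τ => X τ s, fun τ hτ => ?_, fun τ hτ => ⟨X τ, hX1 τ, rfl, hX2 τ⟩⟩
  obtain ⟨K, hK0, hK⟩ := carry_est h hs hst ht
  rw [hasDerivWithinAt_iff_isLittleO]
  have hd := hΓ τ hτ
  have h1 : (fun τ' => Γ τ' - Γ τ - (τ' - τ) • vort (u t) (Γ τ)) =o[𝓝[Icc a b] τ]
      fun τ' => τ' - τ := hasDerivWithinAt_iff_isLittleO.1 hd
  have h2 : (fun τ' => Γ τ' - Γ τ) =O[𝓝[Icc a b] τ] fun τ' => τ' - τ := by
    have e1 : (fun τ' => (τ' - τ) • vort (u t) (Γ τ)) =O[𝓝[Icc a b] τ] fun τ' => τ' - τ := by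
      refine Asymptotics.IsBigO.of_bound ‖vort (u t) (Γ τ)‖ (Eventually.of_forall fun τ' => ?_)
      rw [norm_smul, mul_comm]
    simpa using h1.isBigO.add e1
  have h3 : (fun τ' => ‖Γ τ' - Γ τ‖ ^ 2) =o[𝓝[Icc a b] τ] fun τ' => τ' - τ := by
    have h4 : (fun τ' => ‖Γ τ' - Γ τ‖ ^ 2) =O[𝓝[Icc a b] τ] fun τ' => (τ' - τ) ^ 2 :=
      h2.norm_left.pow 2
    refine h4.trans_isLittleO ?_
    have h5 : (fun τ' : ℝ => τ' - τ) =o[𝓝[Icc a b] τ] fun _ => (1 : ℝ) := by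
      rw [Asymptotics.isLittleO_one_iff]
      have h6 : Tendsto (fun τ' : ℝ => τ' - τ) (𝓝 τ) (𝓝 0) :=
        Continuous.tendsto' (by fun_prop) _ _ (by simp)
      exact h6.mono_left nhdsWithin_le_nhds
    have h7 := h5.mul_isBigO (Asymptotics.isBigO_refl (fun τ' : ℝ => τ' - τ) (𝓝[Icc a b] τ))
    simpa [sq] using h7
  have h8 : (fun τ' => K * (‖Γ τ' - Γ τ - (τ' - τ) • vort (u t) (Γ τ)‖ + ‖Γ τ' - Γ τ‖ ^ 2))
      =o[𝓝[Icc a b] τ] fun τ' => τ' - τ := (h1.norm_left.add h3).const_mul_left K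
  refine Asymptotics.IsBigO.trans_isLittleO (Asymptotics.IsBigO.of_bound 1 ?_) h8
  filter_upwards with τ'
  have h9 := hK (X τ) (X τ') (τ' - τ) (hX1 τ) (hX1 τ')
  rw [hX2 τ, hX2 τ'] at h9
  rw [one_mul]
  exact h9.trans (le_abs_self _)

end Pool.Agent.U481.LN
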