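import Pool.Agent.U481.LN.Len
import Pool.Agent.U481.EU.Rate
import Pool.Agent.U481.EU.En

/-!
The bound of the velocity by the energy and the vorticity.
-/

open MeasureTheory Set Filter Metric
open scoped ENNReal NNReal Topology

set_option autoImplicit false

namespace Pool.Agent.U481.LN

open Pool.Agent.H708R2.EulerSign Pool.Agent.H708R2.EulerTypeI Pool.Agent.W786.Dir
open Pool.Agent.U481.EU

variable {v : V → V}

lemma vel_ibp (hv : ContDiff ℝ 2 v) (hdiv : ∀ x, divergence v x = 0) (x₀ : V) (r : ℝ)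
    (i : Fin 3) : ∫ z, P 2 z * ∑ j, z j * grad v (x₀ + r • z) j i = 0 := by
  have key : ∀ z, ∑ j, fderiv ℝ (fun z => grad v (x₀ + r • z) j i) z (Pi.single j 1) = 0 := by
    intro z
    have h1 : ∀ j, fderiv ℝ (fun z => grad v (x₀ + r • z) j i) z (Pi.single j 1)
        = r * fderiv ℝ (fun x => grad v x j j) (x₀ + r • z) (Pi.single i 1) := by
      intro j
      rw [fderiv_comp_aff (S := fun x => grad v x j i) (grad_contDiff hv j i), smul_eq_mul,
        grad_symm hv]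
    simp only [h1]
    rw [← Finset.mul_sum]
    have h2 : HasFDerivAt (fun x => ∑ j, grad v x j j)
        (∑ j, fderiv ℝ (fun x => grad v x j j) (x₀ + r • z)) (x₀ + r • z) :=
      HasFDerivAt.fun_sum fun j _ => gd hv _ j j
    have h3 : (fun x => ∑ j, grad v x j j) = fun _ => (0 : ℝ) := funext fun x => hdiv x
    rw [h3] at h2
    have h4 := h2.unique (hasFDerivAt_const (0 : ℝ) _)
    have h5 : ∑ j, fderiv ℝ (fun x => grad v x j j) (x₀ + r • z) (Pi.single i 1)
        = (∑ j, fderiv ℝ (fun x => grad v x j j) (x₀ + r • z)) (Pi.single i 1) := by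
      simp
    rw [h5, h4]
    simp
  have hg : ∀ j, ContDiff ℝ 1 fun z => grad v (x₀ + r • z) j i := fun j =>
    comp_aff (grad_contDiff hv j i) x₀ r
  have p3 : ∀ z w : V, fderiv ℝ (P 3) z w = -6 * P 2 z * (z ⬝ᵥ w) := by
    intro z w
    rw [P_fderiv 1 z w]
    norm_num
  have h1 : ∀ j : Fin 3, ∫ z, P 3 z * fderiv ℝ (fun z => grad v (x₀ + r • z) j i) z
      (Pi.single j 1) = 6 * ∫ z, P 2 z * (z j * grad v (x₀ + r • z) j i) := by
    intro j
    rw [ibp (P_contDiff 1) (P_supp 2) (hg j) (Pi.single j 1), ← integral_neg,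
      ← integral_const_mul]
    refine integral_congr_ae (Eventually.of_forall fun z => ?_)
    show -(fderiv ℝ (P 3) z (Pi.single j 1) * grad v (x₀ + r • z) j i)
      = 6 * (P 2 z * (z j * grad v (x₀ + r • z) j i))
    rw [p3]
    simp
    ring
  have hc3 : ∀ j : Fin 3, Integrable fun z => P 3 z *
      fderiv ℝ (fun z => grad v (x₀ + r • z) j i) z (Pi.single j 1) := by
    intro j
    have h2 : Continuous fun z => P 3 z *
        fderiv ℝ (fun z => grad v (x₀ + r • z) j i) z (Pi.single j 1) :=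
      (P_cont 3).mul (((hg j).continuous_fderiv one_ne_zero).clm_apply continuous_const)
    exact h2.integrable_of_hasCompactSupport (P_supp 2).mul_right
  have hc2 : ∀ j : Fin 3, Integrable fun z => P 2 z * (z j * grad v (x₀ + r • z) j i) := by
    intro j
    have h2 : Continuous fun z => P 2 z * (z j * grad v (x₀ + r • z) j i) :=
      (P_cont 2).mul ((continuous_apply j).mul (hg j).continuous)
    exact h2.integrable_of_hasCompactSupport (P_supp 1).mul_right
  have h2 : ∑ j, ∫ z, P 3 z * fderiv ℝ (fun z => grad v (x₀ + r • z) j i) z (Pi.single j 1)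
      = 0 := by
    rw [← integral_finsetSum _ fun j _ => hc3 j]
    have h3 : ∀ z, ∑ j, P 3 z * fderiv ℝ (fun z => grad v (x₀ + r • z) j i) z (Pi.single j 1)
        = 0 := by
      intro z
      rw [← Finset.mul_sum, key z, mul_zero]
    simp only [h3, integral_zero]
  simp only [h1] at h2
  rw [← Finset.mul_sum, ← integral_finsetSum _ fun j _ => hc2 j] at h2
  have h3 : ∀ z, ∑ j, P 2 z * (z j * grad v (x₀ + r • z) j i)
      = P 2 z * ∑ j, z j * grad v (x₀ + r • z) j i := fun z => by rw [Finset.mul_sum]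
  simp only [h3] at h2
  linarith

lemma vel_fderiv (hv : ContDiff ℝ 2 v) (w x z : V) :
    fderiv ℝ (fun x => w ⬝ᵥ v x) x z = ∑ i, w i * ∑ j, z j * grad v x i j := by
  have hd : HasFDerivAt v (fderiv ℝ v x) x := ((hv.differentiable two_ne_zero) x).hasFDerivAt
  have h1 : HasFDerivAt (fun x => ∑ i, w i * v x i)
      (∑ i, w i • (ContinuousLinearMap.proj i ∘L fderiv ℝ v x)) x :=
    HasFDerivAt.fun_sum fun i _ => ((hasFDerivAt_pi'.1 hd i)).const_mul (w i)
  have h2 : fderiv ℝ (fun x => w ⬝ᵥ v x) x = _ := h1.fderiv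
  rw [h2]
  simp only [FunLike.coe_sum, Finset.sum_apply, FunLike.coe_smul, Pi.smul_apply, smul_eq_mul]
  refine Finset.sum_congr rfl fun i _ => ?_
  show w i * fderiv ℝ v x z i = _
  rw [← sum_mul_clm]
  rfl

lemma vel_formula (hv : ContDiff ℝ 2 v) (hdiv : ∀ x, divergence v x = 0) (w x₀ : V) (r : ℝ) :
    ∫ z, P 2 z * fderiv ℝ (fun x => w ⬝ᵥ v x) (x₀ + r • z) z
      = ∫ z, P 2 z * (w ⬝ᵥ cross (vort v (x₀ + r • z)) z) := by
  have hg : ∀ i j, Continuous fun z => grad v (x₀ + r • z) i j := fun i j =>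
    (comp_aff (grad_contDiff hv i j) x₀ r).continuous
  have hi : ∀ i : Fin 3, Integrable fun z => w i * (P 2 z * ∑ j, z j * grad v (x₀ + r • z) j i) := by
    intro i
    have h1 : Continuous fun z => w i * (P 2 z * ∑ j, z j * grad v (x₀ + r • z) j i) :=
      continuous_const.mul ((P_cont 2).mul (continuous_finsetSum _ fun j _ =>
        (continuous_apply j).mul (hg j i)))
    refine h1.integrable_of_hasCompactSupport ?_
    exact ((P_supp 1).mul_right).mul_left
  have h0 : ∫ z, ∑ i, w i * (P 2 z * ∑ j, z j * grad v (x₀ + r • z) j i) = 0 := by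
    rw [integral_finsetSum _ fun i _ => hi i]
    simp only [integral_const_mul, vel_ibp hv hdiv, mul_zero, Finset.sum_const_zero]
  have hc1 : Continuous fun z => P 2 z * fderiv ℝ (fun x => w ⬝ᵥ v x) (x₀ + r • z) z := by
    simp only [vel_fderiv hv]
    exact (P_cont 2).mul (continuous_finsetSum _ fun i _ => continuous_const.mul
      (continuous_finsetSum _ fun j _ => (continuous_apply j).mul (hg i j)))
  have hi1 : Integrable fun z => P 2 z * fderiv ℝ (fun x => w ⬝ᵥ v x) (x₀ + r • z) z :=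
    hc1.integrable_of_hasCompactSupport (P_supp 1).mul_right
  have h1 := integral_sub hi1 (integrable_finsetSum Finset.univ fun i _ => hi i)
  rw [h0, sub_zero] at h1
  rw [← h1]
  refine integral_congr_ae (Eventually.of_forall fun z => ?_)
  show P 2 z * fderiv ℝ (fun x => w ⬝ᵥ v x) (x₀ + r • z) z
    - ∑ i, w i * (P 2 z * ∑ j, z j * grad v (x₀ + r • z) j i)
    = P 2 z * (w ⬝ᵥ cross (vort v (x₀ + r • z)) z)
  rw [vel_fderiv hv, vort_eq]
  simp only [Fin.sum_univ_three, dotProduct, cross, cv, Matrix.cons_val_zero, Matrix.cons_val_one,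
    Matrix.cons_val]
  ring

/-- The velocity at a point. -/
theorem vel_pt (hv : ContDiff ℝ 2 v) (hdiv : ∀ x, divergence v x = 0) {Ω E R l : ℝ}
    (hΩ : ∀ y, nrm (vort v y) ≤ Ω) (hR : 0 < R) (hl : 0 < l) (x₀ : V)
    (hE : ∫ y in closedBall x₀ R, v y ⬝ᵥ v y ≤ E) :
    nrm (v x₀) * ∫ z, P 2 z ≤ (Ω * R + l / 2) * (∫ z, P 2 z) + l⁻¹ * ((R ^ 3)⁻¹ * E) / 2 := by
  obtain ⟨c, hc⟩ : ∃ c, c = ∫ z, P 2 z := ⟨_, rfl⟩
  have hc0 : 0 < c := by rw [hc]; exact P_int_pos 1
  rw [← hc]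
  have hcv : Continuous v := hv.continuous
  have hE0 : 0 ≤ E := le_trans (setIntegral_nonneg measurableSet_closedBall fun y _ =>
    dot_self_nonneg _) hE
  have hΩ0 : 0 ≤ Ω := (nrm_nonneg _).trans (hΩ 0)
  rcases eq_or_ne (v x₀) 0 with h0 | h0
  · rw [h0]
    have : nrm (0 : V) = 0 := by rw [nrm_eq]; simp
    rw [this, zero_mul]
    positivity
  obtain ⟨w, hw⟩ : ∃ w, w = (nrm (v x₀))⁻¹ • v x₀ := ⟨_, rfl⟩
  have hn : 0 < nrm (v x₀) := nrm_pos h0
  have hw1 : nrm w = 1 := by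
    rw [hw, nrm_smul, abs_of_pos (inv_pos.2 hn), inv_mul_cancel₀ hn.ne']
  have hw2 : w ⬝ᵥ v x₀ = nrm (v x₀) := by
    rw [hw, smul_dotProduct, ← nrm_sq, smul_eq_mul]
    field_simp
  have hS : ContDiff ℝ 1 fun x => w ⬝ᵥ v x := by
    have h1 : ContDiff ℝ 1 v := hv.of_le (by norm_num)
    simp only [dotProduct]
    exact ContDiff.sum fun i _ => contDiff_const.mul (contDiff_pi.1 h1 i)
  obtain ⟨A, hA⟩ : ∃ A : ℝ → ℝ, A = fun r => ∫ z : V, P 2 z * (w ⬝ᵥ v (x₀ + r • z)) := ⟨_, rfl⟩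
  have hAd : ∀ r : ℝ, HasDerivAt A (∫ z, P 2 z * (w ⬝ᵥ cross (vort v (x₀ + r • z)) z)) r := by
    intro r
    rw [← vel_formula hv hdiv, hA]
    exact param_deriv (P_cont 2) (P_supp 1) (S := fun x => w ⬝ᵥ v x) hS x₀ r
  have hbd : ∀ r : ℝ, |∫ z, P 2 z * (w ⬝ᵥ cross (vort v (x₀ + r • z)) z)| ≤ Ω * c := by
    intro r
    refine abs_integral_le_integral_abs.trans ?_
    rw [hc, ← integral_const_mul]
    refine integral_mono_of_nonneg (Eventually.of_forall fun z => abs_nonneg _)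
      ((P_integrable 1).const_mul Ω) (Eventually.of_forall fun z => ?_)
    show |P 2 z * (w ⬝ᵥ cross (vort v (x₀ + r • z)) z)| ≤ Ω * P 2 z
    rw [abs_mul, abs_of_nonneg (P_nonneg 2 z)]
    rcases lt_or_ge (z ⬝ᵥ z) 1 with hz | hz
    · have h1 := dot_le w (cross (vort v (x₀ + r • z)) z)
      rw [hw1, one_mul] at h1
      have h2 := nrm_cross_le (vort v (x₀ + r • z)) z
      have h3 := (nrm_lt_one hz).le
      have h4 := hΩ (x₀ + r • z)
      have h5 : nrm (vort v (x₀ + r • z)) * nrm z ≤ Ω * 1 :=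
        mul_le_mul h4 h3 (nrm_nonneg _) hΩ0
      rw [mul_comm]
      exact mul_le_mul_of_nonneg_right (by linarith) (P_nonneg 2 z)
    · have e2 : P 2 z = 0 := P_zero_of hz
      rw [e2]
      simp
  have h1 : |A R - A 0| ≤ Ω * c * R := by
    have h2 := (convex_univ (𝕜 := ℝ) (E := ℝ)).norm_image_sub_le_of_norm_hasDerivWithin_le
      (f := A) (C := Ω * c) (fun r _ => (hAd r).hasDerivWithinAt) (fun r _ => hbd r)
      (mem_univ (0 : ℝ)) (mem_univ R)
    rw [sub_zero, Real.norm_eq_abs, Real.norm_eq_abs, abs_of_pos hR] at h2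
    exact h2
  have hA0 : A 0 = nrm (v x₀) * c := by
    rw [hA, hc, ← integral_const_mul]
    refine integral_congr_ae (Eventually.of_forall fun z => ?_)
    show P 2 z * (w ⬝ᵥ v (x₀ + (0 : ℝ) • z)) = nrm (v x₀) * P 2 z
    rw [zero_smul, add_zero, hw2, mul_comm]
  have hcc : Continuous fun z : V => v z ⬝ᵥ v z := by
    simp only [dotProduct]
    exact continuous_finsetSum _ fun i _ => ((continuous_apply i).comp hcv).mul
      ((continuous_apply i).comp hcv)
  have hAR : A R ≤ l / 2 * c + l⁻¹ * ((R ^ 3)⁻¹ * E) / 2 := by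
    have h2 : A R ≤ ∫ z, (l / 2 * P 2 z + l⁻¹ / 2 * (P 2 z * (v (x₀ + R • z) ⬝ᵥ v (x₀ + R • z)))) := by
      rw [hA]
      have hcS : Continuous fun z : V => P 2 z * (w ⬝ᵥ v (x₀ + R • z)) :=
        (P_cont 2).mul ((hS.continuous (E := V)).comp (by fun_prop : Continuous fun z : V => x₀ + R • z))
      have hcq : Continuous fun z : V => P 2 z * (v (x₀ + R • z) ⬝ᵥ v (x₀ + R • z)) :=
        (P_cont 2).mul (hcc.comp (by fun_prop))
      refine integral_mono (hcS.integrable_of_hasCompactSupport (P_supp 1).mul_right)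
        (((P_integrable 1).const_mul _).add
          ((hcq.integrable_of_hasCompactSupport (P_supp 1).mul_right).const_mul _)) fun z => ?_
      show P 2 z * (w ⬝ᵥ v (x₀ + R • z))
        ≤ l / 2 * P 2 z + l⁻¹ / 2 * (P 2 z * (v (x₀ + R • z) ⬝ᵥ v (x₀ + R • z)))
      have h3 := (le_abs_self _).trans (dot_le w (v (x₀ + R • z)))
      rw [hw1, one_mul] at h3
      have h4 := h3.trans (nrm_le_sq (v (x₀ + R • z)) hl)
      have h5 := mul_le_mul_of_nonneg_left h4 (P_nonneg 2 z)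
      refine h5.trans (le_of_eq ?_)
      ring
    refine h2.trans ?_
    have hcq : Continuous fun z : V => P 2 z * (v (x₀ + R • z) ⬝ᵥ v (x₀ + R • z)) :=
      (P_cont 2).mul (hcc.comp (by fun_prop))
    rw [integral_add ((P_integrable 1).const_mul _)
      ((hcq.integrable_of_hasCompactSupport (P_supp 1).mul_right).const_mul _),
      integral_const_mul, integral_const_mul, ← hc]
    have h3 := avg_le hcc (fun y => dot_self_nonneg _) x₀ hR
    have h4 : (R ^ 3)⁻¹ * ∫ y in closedBall x₀ R, v y ⬝ᵥ v y ≤ (R ^ 3)⁻¹ * E :=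
      mul_le_mul_of_nonneg_left hE (by positivity)
    have h5 := mul_le_mul_of_nonneg_left (h3.trans h4) (show 0 ≤ l⁻¹ / 2 by positivity)
    linarith
  have h2 := neg_le_of_abs_le h1
  rw [hA0] at h2
  linarith

/-- The constant of the bound of the velocity. -/
noncomputable def Cv : ℝ := 3 / 2 + 1 / (2 * ∫ z, P 2 z)

lemma Cv_pos : 0 < Cv := by
  have h : 0 < ∫ z, P 2 z := P_int_pos 1
  unfold Cv
  positivity

/-- The bound of the velocity by the energy and the vorticity. -/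
theorem vel_bound (hv : ContDiff ℝ 2 v) (hdiv : ∀ x, divergence v x = 0) {Ω E : ℝ}
    (hΩ : ∀ y, nrm (vort v y) ≤ Ω) (hE0 : 0 < E) (x₀ : V)
    (hE : ∀ R, 0 < R → R ≤ 1 → ∫ y in closedBall x₀ R, v y ⬝ᵥ v y ≤ E) :
    nrm (v x₀) ≤ Cv * (E ^ (1 / 5 : ℝ) * Ω ^ (3 / 5 : ℝ) + E ^ (1 / 2 : ℝ)) := by
  obtain ⟨c, hc⟩ : ∃ c, c = ∫ z, P 2 z := ⟨_, rfl⟩
  have hc0 : 0 < c := by rw [hc]; exact P_int_pos 1
  have hΩ0 : 0 ≤ Ω := (nrm_nonneg _).trans (hΩ 0)
  have hC : Cv = 3 / 2 + 1 / (2 * c) := by rw [hc, Cv]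
  have fin : ∀ l, nrm (v x₀) * c ≤ (l + l / 2) * c + l / 2 → nrm (v x₀) ≤ Cv * l := by
    intro l h
    rw [hC]
    have h1 : (3 / 2 + 1 / (2 * c)) * l = ((l + l / 2) * c + l / 2) / c := by
      field_simp
      ring
    rw [h1, le_div_iff₀ hc0]
    exact h
  have hx1 : 0 ≤ E ^ (1 / 5 : ℝ) * Ω ^ (3 / 5 : ℝ) := by positivity
  have hx2 : 0 < E ^ (1 / 2 : ℝ) := Real.rpow_pos_of_pos hE0 _
  rcases le_or_gt (Ω ^ 2) E with h | h
  · obtain ⟨l, hl⟩ : ∃ l, l = E ^ (1 / 2 : ℝ) := ⟨_, rfl⟩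
    have hl0 : 0 < l := by rw [hl]; exact hx2
    have hl2 : l ^ 2 = E := by
      rw [hl, ← Real.rpow_natCast, ← Real.rpow_mul hE0.le]
      norm_num
    have h1 := vel_pt hv hdiv hΩ one_pos hl0 x₀ (hE 1 one_pos le_rfl)
    rw [← hc] at h1
    have h2 : Ω ≤ l := by
      rw [← hl2] at h
      exact le_of_sq_le_sq h hl0.le
    have h3 : l⁻¹ * (((1 : ℝ) ^ 3)⁻¹ * E) = l := by
      rw [← hl2]
      field_simp
    rw [h3] at h1
    have h4 := fin l (by nlinarith)
    rw [← hl]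
    have := Cv_pos
    nlinarith
  · obtain ⟨e, he⟩ : ∃ e, e = E ^ (1 / 5 : ℝ) := ⟨_, rfl⟩
    obtain ⟨o, ho⟩ : ∃ o, o = Ω ^ (1 / 5 : ℝ) := ⟨_, rfl⟩
    have hΩp : 0 < Ω := by
      rcases hΩ0.eq_or_lt with h0 | h0
      · rw [← h0] at h
        linarith
      · exact h0
    have he0 : 0 < e := by rw [he]; exact Real.rpow_pos_of_pos hE0 _
    have ho0 : 0 < o := by rw [ho]; exact Real.rpow_pos_of_pos hΩp _
    have he5 : e ^ 5 = E := by
      rw [he, ← Real.rpow_natCast, ← Real.rpow_mul hE0.le]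
      norm_num
    have ho5 : o ^ 5 = Ω := by
      rw [ho, ← Real.rpow_natCast, ← Real.rpow_mul hΩ0]
      norm_num
    have ho3 : o ^ 3 = Ω ^ (3 / 5 : ℝ) := by
      rw [ho, ← Real.rpow_natCast, ← Real.rpow_mul hΩ0]
      norm_num
    have hR1 : e / o ^ 2 ≤ 1 := by
      rw [div_le_one (by positivity)]
      have h1 : e ^ 5 < (o ^ 2) ^ 5 := by
        rw [he5, ← pow_mul, show 2 * 5 = 5 * 2 by norm_num, pow_mul, ho5]
        exact h
      exact (lt_of_pow_lt_pow_left₀ 5 (by positivity) h1).le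
    have h1 := vel_pt hv hdiv hΩ (R := e / o ^ 2) (by positivity) (l := e * o ^ 3) (by positivity) x₀
      (hE _ (by positivity) hR1)
    rw [← hc] at h1
    have h2 : Ω * (e / o ^ 2) = e * o ^ 3 := by
      rw [← ho5]
      field_simp
    have h3 : (e * o ^ 3)⁻¹ * (((e / o ^ 2) ^ 3)⁻¹ * E) = e * o ^ 3 := by
      rw [← he5]
      field_simp
    rw [h2, h3] at h1
    have h4 := fin _ h1
    rw [← he, ← ho3]
    have := Cv_pos
    nlinarith

variable {T : ℝ} {u : ℝ → V → V} {p : ℝ → V → ℝ}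

/-- The velocity of a solution. -/
theorem vel_sol (h : IsC2Solution T u p) {t : ℝ} (ht : t ∈ Ioo 0 T) {Ω E : ℝ}
    (hΩ : ∀ y, nrm (vort (u t) y) ≤ Ω) (hE0 : 0 < E) (hE : ener (u 0) ≤ E) (x : V) :
    nrm (u t x) ≤ Cv * (E ^ (1 / 5 : ℝ) * Ω ^ (3 / 5 : ℝ) + E ^ (1 / 2 : ℝ)) :=
  vel_bound (slice_cont h ht) (h.sol.div_free t ⟨ht.1.le, ht.2⟩) hΩ hE0 x fun _ _ hR =>
    (loc_ener h.sol ⟨ht.1.le, ht.2⟩ x hR).trans hE

end Pool.Agent.U481.LN
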